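import Pool.Agent.Work.MP_72ad00_an.F.F3

/-!
The iteration for flats of any dimension.
-/

set_option autoImplicit false

open Finset Real

namespace Pool.Agent.Work.MP_72ad00_an.F

open Pool.Agent.Lib.PFR H

variable {m k : ℕ} {Ω : Type} [Fintype Ω] {ℓ L : ℝ} {K : ℕ} {μ : Ω → ℝ} {x : Ω → Fin m → ℝ}
  {a : Ω → Fin (k + 1) → Fin m → ℝ} {S : Ω → Finset (Fin (k + 1) → Fin K)} {w t n : ℝ}
  {Z : (Fin (k + 1) → Fin K) → Finset (Fin m → ℝ)} {c : (Fin (k + 1) → Fin K) → Ω → Fin m → ℝ}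

theorem core {β s κ p q γ κ' r : ℝ} (h : RKp m β s) (h0 : 1 / 2 ≤ β) (h1 : β ≤ 1)
    (hp : RFp m k κ p) (k0 : 0 ≤ κ) (k1 : κ ≤ 1) (hq : AHp m k q) (hγ : (k + 1) * γ = 1)
    (hr : RFp m (k + 1) κ' r) (k2 : κ' ≤ 1) (hU : FU ℓ K μ x a S w t Z c n)
    (hL : 20 * ℓ + 40 * ((k + 1) * (m * ℓ)) ≤ L) (hK1 : exp (s * L) ≤ K) (hK2 : exp (p * L) ≤ K)
    (hK3 : exp (q * L) ≤ K) (hK4 : exp (r * L) ≤ K) (hK5 : exp (8 * ℓ) ≤ K) {gA gB gN : ℝ}
    (hA : (p + 2) * L + t - (2 - (k + 2) * κ) * (m * log K) - κ * (t - w) ≤ gA)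
    (hB : (q + 2) * L + t - 2 * (m * log K) + γ * (n + gA + m * log K - t) ≤ gB)
    (hN : (r + 2) * L + t - m * log K + κ' * (n + gA + m * log K - t) ≤ gN) :
    t - 8 * ℓ ≤ (s + 1) * L + 2 * n + (1 - β) * gN + (2 * β - 1) * gB +
      (1 - β) * (n - t + 2 * gA) := by
  have hl := hU.l1
  have kk := Nat.cast_nonneg (α := ℝ) k
  have hμ := hU.fa.pos
  have hK0 : (0 : ℝ) < K := (exp_pos _).trans_le hK5
  have hK6 : (2 : ℝ) ≤ K := le_trans (by
    linarith [two_le_exp (by linarith : 0 + 1 ≤ 8 * ℓ), exp_zero]) hK5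
  have hK7 : (1 : ℝ) ≤ K := by linarith
  have h3 : 1 ≤ K * exp (- (8 * ℓ)) := one_le_mul_exp hK5
  generalize hX : (s + 1) * L + 2 * n + (1 - β) * gN + (2 * β - 1) * gB +
      (1 - β) * (n - t + 2 * gA) = X
  have cR := card_par (k + 1) K
  have cK : ((range K).card : ℝ) = K := by rw [card_range]
  set V := vp μ S c (exp (t - n - 10 * ℓ)) with hV
  have hV0 : ∀ z v, 0 ≤ V z v := fun z => gv_nonneg hμ (exp_pos _)
  have hVt : ∀ z, ∑ v, V z v ≤ exp t := fun z => (gv_sum_le hμ (exp_pos _)).trans hU.tot.le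
  obtain ⟨F1, hF1⟩ : ∃ F1 : (Fin (k + 1) → Fin K) → (Fin (k + 1) → Fin K) → ℝ, ∀ z e, F1 z e =
    ms μ (fun ω => sp K (8 * ℓ) (e 0) ∧ Hv μ (LA K x a z e) gA ω) := ⟨_, fun _ _ => rfl⟩
  obtain ⟨F2, hF2⟩ : ∃ F2 : (Fin (k + 1) → Fin K) → (Fin (k + 1) → Fin K) →
    (Fin (k + 1) → Fin K) → ℝ, ∀ z e' e, F2 z e' e =
    ms (V z) (fun v => (sp K (8 * ℓ) (e 0) ∧ sp K (8 * ℓ) (e' 0)) ∧
      ¬ Hv μ (LA K x a z e') gA v.2 ∧ Hv (V z) (LB K a e e') gB v) := ⟨_, fun _ _ _ => rfl⟩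
  obtain ⟨F3, hF3⟩ : ∃ F3 : (Fin (k + 1) → Fin K) → (Fin (k + 1) → Fin K) →
    (Fin (k + 1) → Fin K) → ℝ, ∀ z e' e, F3 z e' e =
    ms (V z) (fun v => ¬ Hv μ (LA K x a z e') gA v.2 ∧ Hv (V z) (LN K a e e') gN v) :=
    ⟨_, fun _ _ _ => rfl⟩
  have s1 : ∀ e, ∑ z, F1 z e ≤ K ^ (k + 1) * (3 * exp (t - 10 * ℓ)) := fun e => by
    simp only [hF1]
    exact light_A hp k0 k1 hU hL hK2 hK7 hA e
  have s2 : ∀ z e', ∑ e, F2 z e' e ≤ K ^ (k + 1) * (3 * exp (t - 10 * ℓ)) := fun z e' => by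
    simp only [hF2]
    exact light_B hq hγ hU hL hK3 hK7 hB z e'
  have s3 : ∀ z e', ∑ e, F3 z e' e ≤ K ^ (k + 1) * (3 * exp (t - 10 * ℓ)) := fun z e' => by
    simp only [hF3]
    exact light_N hr k2 hU hL hK4 hN z e'
  have s4 : ∑ e : Fin (k + 1) → Fin K, ind (¬ sp K (8 * ℓ) (e 0)) ≤
      K ^ (k + 1) * (3 * exp (- (8 * ℓ))) := by
    rw [sum_cons, sum_comm, pow_succ, mul_assoc]
    refine sum_bound (card_par k K) fun j _ => ?_
    simp only [Fin.cons_zero]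
    have := card_close K (K / 2) _ h3
    rw [← card_fin, card_fl_eq] at this
    exact this.trans_eq (by ring)
  have step : ∀ z e' e, ∑ v, V z v * ((gs K S z e e' v).card : ℝ) ≤
      K * (exp (t - 10 * ℓ) + exp X) + K * (exp t * ind (¬ sp K (8 * ℓ) (e 0)) +
        (exp t * ind (¬ sp K (8 * ℓ) (e' 0)) +
        (F1 z e + (F1 z e' + (F2 z e' e + F3 z e' e))))) := by
    intro z e' e
    refine (sum_split (hV0 z) (fun v => (card_fl_le _ _).trans cK.le) _).trans (add_le_add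
      (hX ▸ light_D h h0 h1 hU hL hK1 gA gB gN z e e') (mul_le_mul_of_nonneg_left ?_ hK0.le))
    rw [hF1, hF1, hF2, hF3]
    exact (ms_mono (hV0 z) fun v _ h2 => by tauto).trans (ms_or (hV0 z) (ms_const (hVt z) _)
      (ms_or (hV0 z) (ms_const (hVt z) _)
      (ms_or (hV0 z) (gv_fst hμ (exp_pos _) _) (ms_or (hV0 z) (gv_snd hμ (exp_pos _) _)
      (ms_or (hV0 z) le_rfl le_rfl)))))
  have up := sum_le_sum fun z (_ : z ∈ univ) => sum_le_sum fun e' (_ : e' ∈ univ) =>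
    sum_le_sum fun e (_ : e ∈ univ) => step z e' e
  have d9 : ∀ ω, μ ω ≠ 0 → 9 ^ (k + 1) * (K ^ (k + 1) * exp (20 - 13 / 4 * ℓ)) ≤
      ((S ω).card : ℝ) := fun ω hω => by
    refine (mul_le_mul_of_nonneg_right (nine_pow hU.fa.l1) (by positivity)).trans
      (le_trans ?_ (mul_exp_le.2 (hU.fa.den ω hω)))
    rw [mul_left_comm]
    exact mul_le_mul_of_nonneg_left (exp_mul_le (by linarith)) (by positivity)
  have lo : ∀ z ∈ univ, K / 4 * (K ^ (k + 1) * exp (20 - 13 / 4 * ℓ) *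
      (K ^ (k + 1) * exp (20 - 13 / 4 * ℓ))) * (ms μ (fun ω => z ∈ S ω) - exp (t - 10 * ℓ)) ≤
      ∑ e', ∑ e, ∑ v, V z v * ((gs K S z e e' v).card : ℝ) := by
    intro z _
    have b1 := gv_sum_ge (E := fun ω => z ∈ S ω) hμ (exp_pos (t - n - 10 * ℓ)) _
      (hU.zc z) fun ω h1 h2 => (hU.cov ω h1 z h2).1
    rw [← exp_add, show n + (t - n - 10 * ℓ) = t - 10 * ℓ by ring] at b1
    refine (mul_le_mul_of_nonneg_left (sub_le_iff_le_add.2 b1) (by positivity)).trans ?_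
    rw [sum_congr rfl fun e _ => sum_comm, sum_comm, mul_sum]
    refine sum_le_sum fun v _ => ?_
    simp only [← mul_sum]
    rw [mul_comm]
    rcases (hV0 z v).eq_or_lt with h1 | h1
    · exact le_of_eq (by rw [← h1, zero_mul]; exact mul_eq_zero_of_left h1.symm _)
    obtain ⟨b3, b4, -⟩ := gv_ne h1.ne'
    exact mul_le_mul_of_nonneg_left (gs_count (by exact_mod_cast hK6) S z (by positivity)
      (d9 _ b3) (d9 _ b4)) h1.le
  have k4 := sum_den hμ (fun _ => subset_univ _) hU.fa.den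
  have k5 := (sum_le_sum lo).trans up
  rw [hU.tot] at k4
  simp only [← mul_sum, sum_sub_distrib, sum_add_distrib, sum_const, nsmul_eq_mul, cR] at k5
  have t1 : ∑ z, ∑ e, F1 z e ≤ K ^ (k + 1) * (K ^ (k + 1) * (3 * exp (t - 10 * ℓ))) := by
    rw [sum_comm]
    exact sum_bound cR fun e _ => s1 e
  have t2 := sum_bound cR fun z (_ : z ∈ univ) => sum_bound cR fun e' _ => s2 z e'
  have t3 := sum_bound cR fun z (_ : z ∈ univ) => sum_bound cR fun e' _ => s3 z e'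
  have hN0 : (0 : ℝ) < K ^ (k + 1) := by positivity
  generalize (K : ℝ) ^ (k + 1) = N at *
  have u1 := mul_le_mul_of_nonneg_left t1 (by positivity : (0 : ℝ) ≤ K * N)
  have u2 := mul_le_mul_of_nonneg_left t2 hK0.le
  have u3 := mul_le_mul_of_nonneg_left t3 hK0.le
  have u4 := mul_le_mul_of_nonneg_left s4 (by positivity : (0 : ℝ) ≤ K * N ^ 2 * exp t)
  have u6 := mul_le_mul_of_nonneg_left k4 (by positivity : (0 : ℝ) ≤
    K / 4 * (N * exp (20 - 13 / 4 * ℓ) * (N * exp (20 - 13 / 4 * ℓ))))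
  have u7 : exp (20 - 13 / 4 * ℓ) * exp (20 - 13 / 4 * ℓ) *
      (exp (- ℓ) * exp t - exp (t - 10 * ℓ)) / 4 ≤
      exp X + 6 * (exp t * exp (- (8 * ℓ))) + 13 * exp (t - 10 * ℓ) := by
    refine le_of_mul_le_mul_left ?_ (by positivity : (0 : ℝ) < K * N ^ 3)
    linarith
  have b1 : exp (t - 8 * ℓ + 6) ≤
      exp (20 - 13 / 4 * ℓ) * exp (20 - 13 / 4 * ℓ) * (exp (- ℓ) * exp t) := by
    simp only [← exp_add]
    exact exp_le_exp.2 (by linarith)
  have b2 : exp (20 - 13 / 4 * ℓ) * exp (20 - 13 / 4 * ℓ) * exp (t - 10 * ℓ) ≤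
      exp (t - 8 * ℓ) := by
    rw [← exp_add]
    exact exp_mul_le (by linarith)
  have b3 : exp t * exp (- (8 * ℓ)) = exp (t - 8 * ℓ) := by rw [← exp_add]; congr 1
  have b4 := exp_le_exp.2 (by linarith : t - 10 * ℓ ≤ t - 8 * ℓ)
  have b5 := c6_le_exp (le_refl (t - 8 * ℓ + 6))
  refine exp_le_exp.1 ?_
  linarith [exp_pos (t - 8 * ℓ)]

theorem RF.step {β κ γ κ' ρ : ℝ} (h : RK m β) (h0 : 1 / 2 ≤ β) (h1 : β ≤ 1) (hp : RF m k κ)
    (k0 : 0 ≤ κ) (k1 : κ ≤ 1) (hγ : (k + 1) * γ = 1) (hr : RF m (k + 1) κ') (k2 : 0 ≤ κ')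
    (k3 : κ' ≤ 1) (hρ : 2 - 2 * β + ((1 - β) * κ' + (2 * β - 1) * γ) ≤
      ρ * (3 - β + ((1 - β) * κ' + (2 * β - 1) * γ))) (r1 : ρ ≤ 1) : RF m (k + 1) (ρ * κ) := by
  have kk := Nat.cast_nonneg (α := ℝ) k
  have g0 : 0 < γ := by
    by_contra h2
    nlinarith
  have g1 : γ ≤ 1 := by nlinarith
  have b1 : 0 ≤ 1 - β := by linarith
  have b2 : 0 ≤ 2 * β - 1 := by linarith
  have b3 := mul_nonneg b1 k2
  have b4 := mul_nonneg b2 g0.le
  have b5 := mul_le_mul_of_nonneg_left k3 b1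
  have b6 := mul_le_mul_of_nonneg_left g1 b2
  generalize hj : (1 - β) * κ' + (2 * β - 1) * γ = j at hρ
  have hW : 0 < 3 - β + j := by linarith
  refine RF.mono (c := (2 - 2 * β + j) / (3 - β + j) * κ) ?_
    (mul_le_mul_of_nonneg_right ((div_le_iff₀ hW).2 hρ) k0) (by nlinarith)
  obtain ⟨s, s1, h⟩ := h
  obtain ⟨p, p1, hp⟩ := hp
  obtain ⟨q, q1, hq⟩ := AH (m := m) k
  obtain ⟨r, r1, hr⟩ := hr
  have m0 : 0 ≤ (k + 1 : ℝ) * m := by positivity
  refine ⟨2 + (s + r + q + 2 * p + 10) * (40 + 80 * ((k + 1) * m)), by nlinarith,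
    fun ℓ K Ω _ μ x a S w Z n t hP hK h2 ht => ?_⟩
  have hl := hP.l1
  push_cast at hl
  have a0 := mul_nonneg m0 (by linarith : 0 ≤ ℓ)
  obtain ⟨L, hL⟩ : ∃ L, (40 + 80 * ((k + 1 : ℝ) * m)) * ℓ = L := ⟨_, rfl⟩
  rw [add_mul 2, mul_assoc (s + r + q + 2 * p + 10), hL] at hK ⊢
  have L0 : 40 * ℓ ≤ L := by linarith
  have a1 : 0 ≤ s * L := mul_nonneg (by linarith) (by linarith)
  have a2 : 0 ≤ p * L := mul_nonneg (by linarith) (by linarith)
  have a3 : 0 ≤ q * L := mul_nonneg (by linarith) (by linarith)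
  have a4 : 0 ≤ r * L := mul_nonneg (by linarith) (by linarith)
  have hT : 0 < ∑ ω, μ ω := (exp_pos t).trans_le ht
  obtain ⟨t', ht'⟩ : ∃ t', ∑ ω, μ ω = exp t' := ⟨_, (exp_log hT).symm⟩
  have htt : t ≤ t' := exp_le_exp.1 (ht' ▸ ht)
  obtain ⟨S', Z', hU, hz⟩ := hP.unif
  have hc := hU.cov
  choose! c hc1 hc2 using hc
  have key := core (c := fun z ω => c ω z) (L := L) h h0 h1 hp k0 k1 hq hγ hr k3
    ⟨hU, hz, fun ω hω z hz => ⟨hc1 ω hω z hz, hc2 ω hω z hz⟩, ht',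
      fun z => (h2 z).trans (exp_le_exp.2 (by linarith))⟩ (by linarith)
    ((exp_le_exp.2 (by linarith)).trans hK)
    ((exp_le_exp.2 (by linarith)).trans hK) ((exp_le_exp.2 (by linarith)).trans hK)
    ((exp_le_exp.2 (by linarith)).trans hK) ((exp_le_exp.2 (by linarith)).trans hK)
    le_rfl le_rfl le_rfl
  refine le_of_mul_le_mul_left ?_ hW
  have e1 : (3 - β + j) * ((2 - 2 * β + j) / (3 - β + j)) = 2 - 2 * β + j :=
    mul_div_cancel₀ _ hW.ne'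
  generalize (2 - 2 * β + j) / (3 - β + j) = u at e1 ⊢
  have f1 := mul_le_mul_of_nonneg_left htt (mul_nonneg (by linarith : 0 ≤ 2 - 2 * β + j) k0)
  have f2 := mul_le_mul_of_nonneg_right (by linarith : 1 - β ≤ 1)
    (by linarith : 0 ≤ (r + 2) * L)
  have f3 := mul_le_mul_of_nonneg_right (by linarith : 2 * β - 1 ≤ 1)
    (by linarith : 0 ≤ (q + 2) * L)
  have f4 := mul_le_mul_of_nonneg_right (by linarith : 2 - 2 * β + j ≤ 2)
    (by linarith : 0 ≤ (p + 2) * L)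
  have f5 := mul_le_mul_of_nonneg_right (by linarith : 1 ≤ 3 - β + j)
    (by linarith : 0 ≤ (s + r + q + 2 * p + 10) * L)
  have f6 : (3 - β + j) * ((1 - (((k + 1 : ℕ) : ℝ) + 1) * (u * κ)) * (m * log K) +
      u * κ * (t - w)) = (3 - β + j - (k + 2) * ((2 - 2 * β + j) * κ)) * (m * log K) +
        (2 - 2 * β + j) * κ * (t - w) := by
    rw [← e1]
    push_cast
    ring
  rw [f6]
  subst hj
  linarith

theorem RF.pass {κ γ : ℝ} (hp : RF m k κ) (k0 : 0 ≤ κ) (k1 : κ ≤ 0.4031) (hγ : (k + 1) * γ = 1)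
    (g1 : γ ≤ 1 / 2) {ρ : ℝ} (r1 : ρ ≤ 1)
    (hρ : 0.8062 + (0.4031 * (0.3795 * κ) + 0.1938 * γ) ≤
      ρ * (2.4031 + (0.4031 * (0.3795 * κ) + 0.1938 * γ))) : RF m (k + 1) (ρ * κ) := by
  have h1 := RF.step (ρ := 0.45) RK.best (by norm_num) (by norm_num) hp k0 (by linarith) hγ RF.one
    zero_le_one le_rfl (by linarith) (by norm_num)
  have h2 := RF.step (ρ := 0.3795) RK.best (by norm_num) (by norm_num) hp k0 (by linarith) hγ h1
    (by linarith) (by linarith) (by linarith) (by norm_num)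
  exact RF.step RK.best (by norm_num) (by norm_num) hp k0 (by linarith) hγ h2
    (by linarith) (by linarith) (by linarith) r1

/-- The constant for flats of dimension `k`. -/
noncomputable def cc (k : ℕ) : ℝ := 0.4031 * ∏ i ∈ Icc 2 k, (0.3355 + 0.054 / ((i : ℝ) - 0.7))

theorem cc_succ (k : ℕ) : cc (k + 2) = (0.3355 + 0.054 / (k + 1.3)) * cc (k + 1) := by
  rw [cc, cc, prod_Icc_succ_top (by omega)]
  push_cast
  rw [show (k : ℝ) + 1 + 1 - 0.7 = k + 1.3 by ring]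
  ring

theorem cc_one : cc 1 = 0.4031 := by simp [cc]

theorem cc_pos (k : ℕ) : 0 < cc (k + 1) := by
  induction k with
  | zero => rw [cc_one]; norm_num
  | succ k ih => rw [cc_succ]; positivity

theorem cc_le (k : ℕ) : cc (k + 3) * (k + 4) ^ 2 ≤ 0.885 := by
  induction k with
  | zero => rw [cc_succ, cc_succ, cc_one]; norm_num
  | succ k ih =>
    have k0 := Nat.cast_nonneg (α := ℝ) k
    have h1 : 0.054 / (((k + 2 : ℕ) : ℝ) + 1.3) ≤ 0.1 := by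
      rw [div_le_iff₀ (by positivity)]
      push_cast
      linarith
    have h2 := cc_pos (k + 2)
    rw [show k + 1 + 3 = k + 2 + 2 by ring, cc_succ]
    push_cast at h1 ⊢
    have h3 : ((k : ℝ) + 1 + 4) ^ 2 ≤ 2 * (k + 4) ^ 2 := by nlinarith
    linarith [mul_le_mul_of_nonneg_left h3 h2.le, mul_le_mul_of_nonneg_right h1
      (by positivity : 0 ≤ cc (k + 2 + 1) * (k + 1 + 4) ^ 2)]

theorem RF.best (k : ℕ) : RF m (k + 1) (cc (k + 1)) := by
  induction k with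
  | zero =>
    rw [cc_one]
    exact (RF.base RK.best (by norm_num)).mono (by norm_num) (by norm_num)
  | succ k ih =>
    rw [cc_succ]
    rcases k with _ | _ | k
    · rw [cc_one] at ih ⊢
      exact ih.pass (γ := 1 / 2) (by norm_num) le_rfl (by norm_num) le_rfl
        (by norm_num) (by norm_num)
    · rw [cc_succ, cc_one] at ih ⊢
      exact ih.pass (γ := 1 / 3) (by norm_num) (by norm_num) (by norm_num) (by norm_num)
        (by norm_num) (by norm_num)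
    have k0 := Nat.cast_nonneg (α := ℝ) k
    have h1 := cc_le k
    have h2 := cc_pos (k + 2)
    obtain ⟨γ, hγ⟩ : ∃ γ : ℝ, (k + 4) * γ = 1 := ⟨_, mul_inv_cancel₀ (by positivity)⟩
    have g0 : 0 < γ := by
      by_contra h2
      nlinarith
    have g1 : γ ≤ 1 / 4 := by nlinarith
    have h3 : cc (k + 3) ≤ 0.885 * γ ^ 2 := by
      have := mul_le_mul_of_nonneg_right h1 (sq_nonneg γ)
      rwa [mul_assoc, ← mul_pow, hγ, one_pow, mul_one] at this
    have h4 : 0.054 * (γ + 0.7 * γ ^ 2) ≤ 0.054 / (((k + 1 + 1 : ℕ) : ℝ) + 1.3) := by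
      rw [le_div_iff₀ (by positivity)]
      push_cast
      nlinarith [mul_pos g0 g0]
    have h5 : 0.054 / (((k + 1 + 1 : ℕ) : ℝ) + 1.3) ≤ 0.1 := by
      rw [div_le_iff₀ (by positivity)]
      push_cast
      linarith
    refine ih.pass (γ := γ) h2.le (by nlinarith) (by push_cast; linarith) (by linarith)
      (by linarith) ?_
    generalize 0.054 / (((k + 1 + 1 : ℕ) : ℝ) + 1.3) = y at h4 h5
    have h6 : 0 ≤ 0.4031 * (0.3795 * cc (k + 1 + 1 + 1)) + 0.1938 * γ := by positivity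
    linarith [mul_nonneg ((by positivity : (0 : ℝ) ≤ _).trans h4) h6]

end Pool.Agent.Work.MP_72ad00_an.F
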