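import Pool.Agent.Work.MP_72ad00_an.H.PK3

/-!
Robust inequalities for flats of any dimension: definitions and general lemmas.
-/

set_option autoImplicit false

open Finset Real

namespace Pool.Agent.Work.MP_72ad00_an.F

open Pool.Agent.Lib.PFR H

variable {m k : ℕ}

/-- The point of a flat with parameter `q / K`. -/
noncomputable def fp {Ω : Type} (K : ℕ) (x : Ω → Fin m → ℝ) (a : Ω → Fin k → Fin m → ℝ)
    (q : Fin k → Fin K) (ω : Ω) : Fin m → ℝ := x ω + ∑ i, (((q i : ℕ) : ℝ) / K) • a ω i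

/-- A weighted family of flats with sets of good parameters. -/
structure FA {Ω : Type} [Fintype Ω] (ℓ : ℝ) (K : ℕ) (μ : Ω → ℝ) (x : Ω → Fin m → ℝ)
    (a : Ω → Fin k → Fin m → ℝ) (S : Ω → Finset (Fin k → Fin K)) (w : ℝ)
    (Z : (Fin k → Fin K) → Finset (Fin m → ℝ)) (n : ℝ) : Prop where
  l1 : 10 + (k : ℝ) ≤ ℓ
  pos : ∀ ω, 0 ≤ μ ω
  an : ∀ ω, ‖a ω‖ ≤ exp ℓ * K
  den : ∀ ω, μ ω ≠ 0 → (K : ℝ) ^ k ≤ exp ℓ * (S ω).card
  c3 : ∀ z z', ms μ (fun ω => ‖x ω - z‖ ≤ 1 ∧ ‖a ω - z'‖ ≤ 1) ≤ exp w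
  cov : ∀ ω, μ ω ≠ 0 → ∀ q ∈ S ω, ∃ z ∈ Z q, ‖fp K x a q ω - z‖ ≤ exp ℓ
  zn : ∑ q, ((Z q).card : ℝ) ≤ K ^ k * exp n

variable (m k) in
/-- The counting inequality with `k + 1` points and loss `p`. -/
def AHp (p : ℝ) : Prop :=
  ∀ (ℓ : ℝ) (K : ℕ) (Ω : Type) [Fintype Ω] (μ : Ω → ℝ) (x : Ω → Fin m → ℝ)
    (a : Ω → Fin k → Fin m → ℝ) (S : Ω → Finset (Fin k → Fin K)) (w : ℝ)
    (Z : (Fin k → Fin K) → Finset (Fin m → ℝ)) (n : ℝ), FA ℓ K μ x a S w Z n →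
    exp (p * ℓ) ≤ K → ∑ ω, μ ω ≤ exp (w + (k + 1) * (n + p * ℓ))

variable (m k) in
/-- The robust inequality for flats with constant `c` and loss `p`. -/
def RFp (c p : ℝ) : Prop :=
  ∀ (ℓ : ℝ) (K : ℕ) (Ω : Type) [Fintype Ω] (μ : Ω → ℝ) (x : Ω → Fin m → ℝ)
    (a : Ω → Fin k → Fin m → ℝ) (S : Ω → Finset (Fin k → Fin K)) (w : ℝ)
    (Z : (Fin k → Fin K) → Finset (Fin m → ℝ)) (n t : ℝ), FA ℓ K μ x a S w Z n →
    exp (p * ℓ) ≤ K → (∀ z, ms μ (fun ω => ‖a ω - z‖ ≤ 1) ≤ exp (t + ℓ - k * (m * log K))) →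
    exp t ≤ ∑ ω, μ ω → (1 - (k + 1) * c) * (m * log K) + c * (t - w) ≤ n + p * ℓ

variable (m k) in
/-- The robust inequality for flats with constant `c`. -/
def RF (c : ℝ) : Prop := ∃ p : ℝ, 1 ≤ p ∧ RFp m k c p

/-- The cell of a tuple of vectors. -/
noncomputable def cellF (v : Fin k → Fin m → ℝ) : Fin k → Fin m → ℝ := fun i => cell (v i)

theorem norm_sub_cellF (v : Fin k → Fin m → ℝ) : ‖v - cellF v‖ ≤ 1 :=
  (pi_norm_le_iff_of_nonneg zero_le_one).2 fun i => norm_sub_cell (v i)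

theorem cells_pi {A : Fin k → Finset (Fin m → ℝ)} {y : ℝ} (h : ∀ i, ((A i).card : ℝ) ≤ exp y) :
    ((Fintype.piFinset A).card : ℝ) ≤ exp (k * y) := by
  rw [Fintype.card_piFinset, exp_nat_mul]
  push_cast
  refine (prod_le_prod (g := fun _ => exp y) (fun _ _ => Nat.cast_nonneg _) fun i _ => h i).trans ?_
  simp

theorem exists_cellsF (z : Fin k → Fin m → ℝ) {x : ℝ} (hx : 0 ≤ x) :
    ∃ A : Finset (Fin k → Fin m → ℝ), (A.card : ℝ) ≤ exp (k * (m * (x + 2))) ∧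
      ∀ v, ‖v - z‖ ≤ 2 * exp x → cellF v ∈ A := by
  choose A h1 h2 using fun i => exists_cells (z i) hx
  exact ⟨_, cells_pi h1, fun v hv => Fintype.mem_piFinset.2 fun i =>
    h2 i _ ((norm_le_pi_norm (v - z) i).trans hv)⟩

theorem dir_cellsF {K : ℕ} (hK : (1 : ℝ) ≤ K) {ℓ : ℝ} (hl : 0 ≤ ℓ) :
    ∃ A : Finset (Fin k → Fin m → ℝ), (A.card : ℝ) ≤ exp (k * (m * log K + m * (ℓ + 2))) ∧
      ∀ v, ‖v‖ ≤ exp ℓ * K → cellF v ∈ A := by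
  obtain ⟨A, h1, h2⟩ := dir_cells (m := m) hK hl
  exact ⟨_, cells_pi fun _ => h1, fun v hv => Fintype.mem_piFinset.2 fun i =>
    h2 _ ((norm_le_pi_norm v i).trans hv)⟩

theorem sum_close {c : Fin k → ℝ} {u v : Fin k → Fin m → ℝ} {C ρ : ℝ} (hc : ∀ i, |c i| ≤ C)
    (h : ‖u - v‖ ≤ ρ) : ‖∑ i, c i • u i - ∑ i, c i • v i‖ ≤ k * (C * ρ) := by
  rw [← sum_sub_distrib]
  refine (norm_sum_le _ _).trans ((sum_le_sum fun i _ => (?_ : _ ≤ C * ρ)).trans ?_)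
  · rw [← smul_sub, norm_smul, Real.norm_eq_abs]
    exact mul_le_mul (hc i) ((norm_le_pi_norm (u - v) i).trans h) (norm_nonneg _)
      ((abs_nonneg _).trans (hc i))
  · simp

theorem cons_close {a : Fin (k + 1) → Fin m → ℝ} {z0 : Fin m → ℝ} {z : Fin k → Fin m → ℝ} {ρ : ℝ}
    (h0 : ‖a 0 - z0‖ ≤ ρ) (h : ‖(fun i => a i.succ) - z‖ ≤ ρ) :
    ‖a - (Fin.cons z0 z : Fin (k + 1) → Fin m → ℝ)‖ ≤ ρ :=
  (pi_norm_le_iff_of_nonneg ((norm_nonneg _).trans h0)).2 <| Fin.cases h0 fun i =>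
    (norm_le_pi_norm ((fun i => a i.succ) - z) i).trans h

theorem tail_le (a : Fin (k + 1) → Fin m → ℝ) : ‖fun i : Fin k => a i.succ‖ ≤ ‖a‖ :=
  (pi_norm_le_iff_of_nonneg (norm_nonneg _)).2 fun i => norm_le_pi_norm a i.succ

theorem sum_cons {α : Type} [Fintype α] (f : (Fin (k + 1) → α) → ℝ) :
    ∑ q, f q = ∑ i, ∑ q : Fin k → α, f (Fin.cons i q) := by
  rw [← (Fin.consEquiv fun _ => α).sum_comp, Fintype.sum_prod_type]
  rfl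

theorem fp_cons {Ω : Type} {K : ℕ} (x : Ω → Fin m → ℝ) (a : Ω → Fin (k + 1) → Fin m → ℝ)
    (i : Fin K) (q : Fin k → Fin K) (ω : Ω) : fp K x a (Fin.cons i q) ω =
      fp K (fun ω => x ω + (((i : ℕ) : ℝ) / K) • a ω 0) (fun ω j => a ω j.succ) q ω := by
  simp only [fp, Fin.sum_univ_succ, Fin.cons_zero, Fin.cons_succ, add_assoc]

theorem card_par (k K : ℕ) : ((univ : Finset (Fin k → Fin K)).card : ℝ) = K ^ k := by
  simp

theorem card_fin (K : ℕ) (P : ℕ → Prop) :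
    ((fl univ fun j : Fin K => P j).card : ℝ) = (fl (range K) P).card := by
  rw [card_fl_eq, card_fl_eq, sum_range]

theorem le_exp_of {k ℓ : ℝ} (h : 10 + k ≤ ℓ) : 8 * (k + 2) ≤ exp ℓ := by
  have h1 := c4_le_exp (by linarith : k + 2 + 4 ≤ ℓ)
  have h2 := add_one_le_exp (k + 2)
  linarith [exp_pos (k + 2)]

variable {Ω : Type} [Fintype Ω]

theorem concF {μ : Ω → ℝ} (hμ : ∀ ω, 0 ≤ μ ω) {E : Ω → Prop} {a : Ω → Fin k → Fin m → ℝ} {w : ℝ}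
    (h : ∀ z, ms μ (fun ω => E ω ∧ ‖a ω - z‖ ≤ 1) ≤ exp w) {x : ℝ} (hx : 0 ≤ x)
    (z : Fin k → Fin m → ℝ) :
    ms μ (fun ω => E ω ∧ ‖a ω - z‖ ≤ 2 * exp x) ≤ exp (k * (m * (x + 2)) + w) := by
  obtain ⟨A, h1, h2⟩ := exists_cellsF z hx
  rw [exp_add]
  exact ms_cover_le hμ A (fun u ω => E ω ∧ ‖a ω - u‖ ≤ 1)
    (fun ω _ h3 => ⟨_, h2 _ h3.2, h3.1, norm_sub_cellF _⟩) (fun u _ => h u) (exp_pos w).le h1

theorem concF0 {μ : Ω → ℝ} (hμ : ∀ ω, 0 ≤ μ ω) {a : Ω → Fin k → Fin m → ℝ} {w : ℝ}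
    (h : ∀ z, ms μ (fun ω => ‖a ω - z‖ ≤ 1) ≤ exp w) {x : ℝ} (hx : 0 ≤ x)
    (z : Fin k → Fin m → ℝ) :
    ms μ (fun ω => ‖a ω - z‖ ≤ 2 * exp x) ≤ exp (k * (m * (x + 2)) + w) := by
  have := concF hμ (E := fun _ => True) (a := a) (w := w) (by simpa using h) hx z
  simpa using this

theorem concG {μ : Ω → ℝ} (hμ : ∀ ω, 0 ≤ μ ω) {y : Ω → Fin m → ℝ} {a : Ω → Fin k → Fin m → ℝ}
    {w : ℝ} (h : ∀ z z', ms μ (fun ω => ‖y ω - z‖ ≤ 1 ∧ ‖a ω - z'‖ ≤ 1) ≤ exp w) {x : ℝ}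
    (hx : 0 ≤ x) (z : Fin m → ℝ) (z' : Fin k → Fin m → ℝ) :
    ms μ (fun ω => ‖y ω - z‖ ≤ 2 * exp x ∧ ‖a ω - z'‖ ≤ 2 * exp x) ≤
      exp ((k + 1) * (m * (x + 2)) + w) := by
  have h1 : ∀ u, ms μ (fun ω => ‖a ω - z'‖ ≤ 2 * exp x ∧ ‖y ω - u‖ ≤ 1) ≤
      exp (k * (m * (x + 2)) + w) := fun u =>
    (ms_mono hμ fun _ _ h => h.symm).trans (concF hμ (h u) hx z')
  refine (ms_mono hμ fun _ _ h => h.symm).trans ((conc1 hμ h1 hx z).trans (le_of_eq ?_))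
  congr 1
  ring

/-- A general conditional form. -/
theorem gcond {P ι : Type} [Fintype P] {μ : Ω → ℝ} (hμ : ∀ ω, 0 ≤ μ ω) (S : Ω → Finset P)
    (U : Ω → ι) (Z : P → Finset (ι × (Fin m → ℝ))) (y : P → Ω → Fin m → ℝ)
    {N0 ℓ r n w0 τ N γ Y : ℝ} (hN : ((univ : Finset P).card : ℝ) = N0) (hK0 : 0 < N0) (h1 : γ ≤ 1)
    (hc : ∀ ω, μ ω ≠ 0 → ∀ q ∈ S ω, ∃ z, (U ω, z) ∈ Z q ∧ ‖y q ω - z‖ ≤ r)
    (hn : ∑ q, ((Z q).card : ℝ) ≤ N0 * exp n) (h0 : ∀ u, ms μ (fun ω => U ω = u) ≤ exp w0)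
    (A : Finset ι) (hA : (A.card : ℝ) ≤ exp N) (hU : ∀ ω, U ω ∈ A)
    (h : ∀ (u : ι) (ν : Ω → ℝ) (Z' : P → Finset (Fin m → ℝ)) (n' t' : ℝ), (∀ ω, 0 ≤ ν ω) →
      (∀ ω, ν ω ≠ 0 → N0 ≤ exp ℓ * (S ω).card) →
      (∀ E : Ω → Prop, ms ν E ≤ ms μ fun ω => U ω = u ∧ E ω) →
      (∀ ω, ν ω ≠ 0 → ∀ q ∈ S ω, ∃ z ∈ Z' q, ‖y q ω - z‖ ≤ r) →
      ∑ q, ((Z' q).card : ℝ) ≤ N0 * exp n' → ∑ ω, ν ω = exp t' → τ ≤ t' → γ * t' ≤ n' + Y) :
    ∑ ω, μ ω * (S ω).card ≤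
      N0 * (exp (- ℓ) * ∑ ω, μ ω + (exp (N + τ) + exp (n + Y + (1 - γ) * w0))) := by
  classical
  refine (sum_le_thin hμ S (ℓ := ℓ) hK0.le fun ω =>
    (Nat.cast_le.2 (card_le_univ _)).trans hN.le).trans ?_
  refine mul_le_mul_of_nonneg_left (add_le_add_right ?_ _) hK0.le
  set X := exp (Y + (1 - γ) * w0) with hX
  have hX0 : 0 < X := exp_pos _
  obtain ⟨Zu, hZ1, hZ2⟩ : ∃ Zu : ι → P → Finset (Fin m → ℝ), (∀ u r z, (u, z) ∈ Z r → z ∈ Zu u r) ∧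
      ∀ r (A : Finset ι), ∑ u ∈ A, ((Zu u r).card : ℝ) ≤ (Z r).card := by
    refine ⟨fun u r => ((Z r).filter fun z => z.1 = u).image Prod.snd,
      fun u r z hz => mem_image.2 ⟨_, mem_filter.2 ⟨hz, rfl⟩, rfl⟩, fun r A => ?_⟩
    rw [← Nat.cast_sum, Nat.cast_le]
    refine (sum_le_sum fun u _ => card_image_le).trans ?_
    exact (sum_card_fiberwise_eq_card_filter (Z r) A Prod.fst).le.trans (card_filter_le _ _)
  have key : ∀ u, ms μ (fun ω => U ω = u ∧ N0 ≤ exp ℓ * (S ω).card) ≤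
      exp τ + X / N0 * ∑ r, ((Zu u r).card : ℝ) := by
    intro u
    set E : Ω → Prop := fun ω => U ω = u ∧ N0 ≤ exp ℓ * (S ω).card with hE
    have b0 : 0 ≤ X / N0 * ∑ r, ((Zu u r).card : ℝ) :=
      mul_nonneg (div_pos hX0 hK0).le (sum_nonneg fun _ _ => Nat.cast_nonneg _)
    rcases le_or_gt (ms μ E) (exp τ) with h3 | h3
    · linarith
    have h4 := (exp_pos τ).trans h3
    refine le_add_of_nonneg_of_le (exp_pos τ).le ?_
    have hE1 : ∀ ω, ind (E ω) * μ ω ≠ 0 → E ω ∧ μ ω ≠ 0 := fun ω h5 =>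
      ⟨by_contra fun h6 => h5 (by rw [ind_neg h6, zero_mul]), right_ne_zero_of_mul h5⟩
    have hE2 : ∀ ω, ind (E ω) * μ ω ≤ μ ω := fun ω => mul_le_of_le_one_left (hμ ω) (ind_le_one _)
    have hcov : ∀ ω, ind (E ω) * μ ω ≠ 0 → ∀ q ∈ S ω, ∃ z ∈ Zu u q,
        ‖y q ω - z‖ ≤ r := fun ω h5 q hr => by
      obtain ⟨z, h6, h7⟩ := hc ω (hE1 ω h5).2 q hr
      exact ⟨z, hZ1 _ _ _ ((hE1 ω h5).1.1 ▸ h6), h7⟩
    have h5 : 0 < ∑ r, ((Zu u r).card : ℝ) := by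
      obtain ⟨ω, -, h6⟩ := exists_ne_zero_of_sum_ne_zero h4.ne'
      have h7 : 0 < (S ω).card := by
        by_contra h8
        have h9 := (hE1 ω h6).1.2
        rw [Nat.eq_zero_of_not_pos h8, Nat.cast_zero, mul_zero] at h9
        linarith
      obtain ⟨r, hr⟩ := card_pos.1 h7
      obtain ⟨z, hz, -⟩ := hcov ω h6 r hr
      exact sum_pos' (fun _ _ => Nat.cast_nonneg _)
        ⟨r, mem_univ _, by exact_mod_cast card_pos.2 ⟨z, hz⟩⟩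
    have h6 := h u (fun ω => ind (E ω) * μ ω) (Zu u) (log ((∑ r, ((Zu u r).card : ℝ)) / N0))
      (log (ms μ E)) (fun ω => mul_nonneg (ind_nonneg _) (hμ ω)) (fun ω h5 => (hE1 ω h5).1.2)
      (fun F => ms_le hμ fun ω h5 h6 => ⟨⟨(hE1 ω h5).1.1, h6⟩, hE2 ω⟩) hcov
      (by rw [exp_log (div_pos h5 hK0), mul_div_cancel₀ _ hK0.ne']) (exp_log h4).symm
      ((le_log_iff_exp_le h4).2 h3.le)
    have h7 : log (ms μ E) ≤ w0 :=
      (log_le_iff_le_exp h4).2 ((ms_mono hμ fun _ _ h => h.1).trans (h0 u))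
    have h8 := mul_le_mul_of_nonneg_left h7 (sub_nonneg.2 h1)
    rw [← exp_log h4, div_mul_comm, ← exp_log (div_pos h5 hK0), hX, ← exp_add]
    exact exp_le_exp.2 (by linarith)
  refine (ms_cover hμ A (fun u ω => U ω = u ∧ N0 ≤ exp ℓ * (S ω).card)
    fun ω _ h4 => ⟨_, hU ω, rfl, h4⟩).trans ((sum_le_sum fun u _ => key u).trans ?_)
  rw [sum_add_distrib, ← mul_sum, sum_comm, sum_const, nsmul_eq_mul, exp_add]
  have h4 : ∑ r, ∑ u ∈ A, ((Zu u r).card : ℝ) ≤ N0 * exp n :=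
    le_trans (sum_le_sum fun r _ => hZ2 r _) hn
  refine add_le_add (mul_le_mul_of_nonneg_right hA (exp_pos _).le)
    ((mul_le_mul_of_nonneg_left h4 (div_pos hX0 hK0).le).trans (le_of_eq ?_))
  rw [← mul_assoc, div_mul_cancel₀ _ hK0.ne', hX, ← exp_add]
  congr 1
  ring

theorem par_le {K : ℕ} (i : Fin K) : |((i : ℕ) : ℝ) / K| ≤ 1 := abs_div_le_one i.2

variable {ℓ : ℝ} {K : ℕ} {μ : Ω → ℝ} {x : Ω → Fin m → ℝ} {a : Ω → Fin k → Fin m → ℝ}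
  {S : Ω → Finset (Fin k → Fin K)} {w n : ℝ} {Z : (Fin k → Fin K) → Finset (Fin m → ℝ)}

theorem FA.triv (hP : FA ℓ K μ x a S w Z n) (hK : (1 : ℝ) ≤ K) :
    ∑ ω, μ ω ≤ exp (w + n + k * (m * log K) + (1 + 4 * ((k + 1) * m)) * ℓ) := by
  have hl := hP.l1
  have hμ := hP.pos
  have m0 := Nat.cast_nonneg (α := ℝ) m
  have k0 := Nat.cast_nonneg (α := ℝ) k
  have km := mul_nonneg k0 m0
  obtain ⟨A, h1, h2⟩ := dir_cellsF (m := m) (k := k) hK (by linarith : 0 ≤ ℓ)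
  have hX := le_exp_of hl
  have k1 := sum_den hμ (fun _ => subset_univ _) hP.den
  have k2 : ∀ q ∈ univ, ms μ (fun ω => q ∈ S ω) ≤ ((Z q).card : ℝ) *
      (exp (k * (m * log K + m * (ℓ + 2))) * exp ((k + 1) * (m * (ℓ + 2)) + w)) := by
    intro q _
    rw [← mul_assoc]
    refine ms_cover_le hμ (Z q ×ˢ A) (fun u ω =>
      ‖x ω - (u.1 - ∑ i, (((q i : ℕ) : ℝ) / K) • u.2 i)‖ ≤ 2 * exp ℓ ∧ ‖a ω - u.2‖ ≤ 2 * exp ℓ)
      (fun ω h3 h4 => ?_) (fun u _ => concG hμ hP.c3 (by linarith) _ _) (exp_pos _).le ?_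
    · obtain ⟨z, z1, z2⟩ := hP.cov ω h3 q h4
      refine ⟨(z, cellF (a ω)), mem_product.2 ⟨z1, h2 _ (hP.an ω)⟩, ?_,
        (norm_sub_cellF _).trans (by linarith)⟩
      have e0 : x ω - (z - ∑ i, (((q i : ℕ) : ℝ) / K) • cellF (a ω) i) = (fp K x a q ω - z) -
          (∑ i, (((q i : ℕ) : ℝ) / K) • a ω i - ∑ i, (((q i : ℕ) : ℝ) / K) • cellF (a ω) i) := by
        simp only [fp]
        abel
      rw [e0]
      refine (norm_sub_le _ _).trans ?_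
      linarith [sum_close (fun i => par_le (q i)) (norm_sub_cellF (a ω))]
    · rw [card_product, Nat.cast_mul]
      exact mul_le_mul_of_nonneg_left h1 (Nat.cast_nonneg _)
  have k3 := k1.trans (sum_le_sum k2)
  rw [← sum_mul] at k3
  have k4 := k3.trans (mul_le_mul_of_nonneg_right hP.zn (by positivity))
  rw [mul_assoc, mul_assoc] at k4
  have k5 := le_of_mul_le_mul_left k4 (by positivity)
  rw [mul_comm, mul_exp_le] at k5
  simp only [← exp_add] at k5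
  refine k5.trans (exp_le_exp.2 ?_)
  nlinarith [mul_le_mul_of_nonneg_left (by linarith : 2 ≤ ℓ) (add_nonneg km m0),
    mul_nonneg m0 (by linarith : 0 ≤ ℓ)]

theorem RF.one : RF m k 1 := by
  have g0 : (0 : ℝ) ≤ (k + 1) * m := by positivity
  refine ⟨1 + 4 * ((k + 1) * m), by linarith, fun ℓ K Ω _ μ x a S w Z n t hP hK _ ht => ?_⟩
  have := exp_le_exp.1 (ht.trans (hP.triv ((one_le_exp (mul_nonneg (by linarith)
    (by linarith [hP.l1, Nat.cast_nonneg (α := ℝ) k]))).trans hK)))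
  linarith

theorem RF.mono {c c' : ℝ} (h : RF m k c) (h0 : c ≤ c') (h1 : c' ≤ 1) : RF m k c' := by
  obtain ⟨p, p1, h⟩ := h
  obtain ⟨q, q1, h'⟩ := RF.one (m := m) (k := k)
  refine ⟨p + q, by linarith, fun ℓ K Ω _ μ x a S w Z n t hP hK h2 ht => ?_⟩
  have hl : 0 ≤ ℓ := by linarith [hP.l1, Nat.cast_nonneg (α := ℝ) k]
  have a1 : 0 ≤ p * ℓ := mul_nonneg (by linarith) hl
  have a2 : 0 ≤ q * ℓ := mul_nonneg (by linarith) hl
  have k1 := h ℓ K Ω μ x a S w Z n t hP ((exp_le_exp.2 (by linarith)).trans hK) h2 ht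
  have k2 := h' ℓ K Ω μ x a S w Z n t hP ((exp_le_exp.2 (by linarith)).trans hK) h2 ht
  rcases le_total 0 (t - w - (k + 1) * (m * log K)) with h3 | h3
  · nlinarith [mul_le_mul_of_nonneg_right h1 h3]
  · nlinarith [mul_le_mul_of_nonpos_right h0 h3]

theorem RF.base {β : ℝ} (h : RK m β) (h1 : β ≤ 1) : RF m 1 (1 - β) := by
  classical
  obtain ⟨p, p1, h⟩ := h
  refine ⟨p + 1, by linarith, fun ℓ K Ω _ μ x a S w Z n t hP hK h2 ht => ?_⟩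
  have hl : 10 ≤ ℓ := by linarith [hP.l1, Nat.cast_nonneg (α := ℝ) 1]
  have e1 : ∀ (ω : Ω) (z : Fin m → ℝ), ‖a ω 0 - z‖ ≤ 1 → ‖a ω - fun _ => z‖ ≤ 1 := fun ω z h3 =>
    (pi_norm_le_iff_of_nonneg zero_le_one).2 fun i => by rwa [Subsingleton.elim i 0]
  have key := h ℓ K Ω μ x (fun ω => a ω 0) (fun ω => (S ω).image fun q => (q 0 : ℕ)) w
    (t + ℓ - m * log K) (fun r => if h : r < K then Z fun _ => ⟨r, h⟩ else ∅) n t
    ⟨hl, hP.pos, fun ω => (norm_le_pi_norm (a ω) 0).trans (hP.an ω), fun ω r hr => ?_,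
      fun ω hω => ?_, fun z => (ms_mono hP.pos fun ω _ h3 => e1 ω z h3).trans
        ((h2 _).trans (exp_le_exp.2 (by simp))),
      fun z z' => (ms_mono hP.pos fun ω _ h3 => ⟨h3.1, e1 ω z' h3.2⟩).trans (hP.c3 _ _)⟩
    ((exp_le_exp.2 (by linarith)).trans hK) (fun ω hω r hr => ?_) ?_ ht
  · push_cast
    nlinarith
  · obtain ⟨q, -, rfl⟩ := mem_image.1 hr
    exact mem_range.2 (q 0).2
  · rw [card_image_of_injective _ fun q q' h3 => funext fun i => by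
      rw [Subsingleton.elim i 0]; exact Fin.ext h3]
    simpa using hP.den ω hω
  · obtain ⟨q, hq, rfl⟩ := mem_image.1 hr
    obtain ⟨z, z1, z2⟩ := hP.cov ω hω q hq
    have e2 : (fun _ => ⟨q 0, (q 0).2⟩) = q := funext fun i => by rw [Subsingleton.elim i 0]
    refine ⟨z, by rwa [dif_pos (q 0).2, e2], ?_⟩
    simpa [fp, pt] using z2
  · have := hP.zn
    rw [sum_cons, pow_one] at this
    refine le_trans (le_of_eq ?_) this
    rw [sum_range]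
    refine sum_congr rfl fun i _ => ?_
    rw [dif_pos i.2, Fintype.sum_unique]
    congr 3
    exact funext fun j => by rw [Subsingleton.elim j 0]; rfl

end Pool.Agent.Work.MP_72ad00_an.F
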