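import Pool.Agent.Work.MP_72ad00_an.F.F0

/-!
The counting inequality with `k + 1` points.
-/

set_option autoImplicit false

open Finset Real

namespace Pool.Agent.Work.MP_72ad00_an.F

open Pool.Agent.Lib.PFR H

variable {m k : ℕ}

/-- A slice of a set of parameters. -/
noncomputable def sl {α : Type} [Fintype α] (S : Finset (Fin (k + 1) → α)) (i : α) :
    Finset (Fin k → α) := fl univ fun q => (Fin.cons i q : Fin (k + 1) → α) ∈ S

theorem card_ind {α : Type} [Fintype α] (S : Finset α) : (S.card : ℝ) = ∑ q, ind (q ∈ S) := by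
  rw [← card_fl_eq]
  congr 2
  ext q
  simp [mem_fl]

theorem card_sl {α : Type} [Fintype α] (S : Finset (Fin (k + 1) → α)) :
    (S.card : ℝ) = ∑ i, ((sl S i).card : ℝ) := by
  rw [card_ind, sum_cons]
  exact sum_congr rfl fun i _ => (card_fl_eq _ _).symm

theorem dense_sl {K : ℕ} (hK : (0 : ℝ) < K) {S : Finset (Fin (k + 1) → Fin K)} {η : ℝ} (hη : 1 ≤ η)
    (h : (K : ℝ) ^ (k + 1) ≤ exp (2 * η) * S.card) :
    K * exp (- (3 * η)) ≤ (fl univ fun i => (K : ℝ) ^ k ≤ exp (3 * η) * (sl S i).card).card := by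
  have h1 := sum_le_thin (μ := fun _ : Fin K => 1) (fun _ => zero_le_one) (sl S) (ℓ := 3 * η)
    (N := (K : ℝ) ^ k) (by positivity) fun i => (Nat.cast_le.2 (card_le_univ _)).trans
      (card_par k K).le
  simp only [one_mul, ms, mul_one, sum_const, card_univ, Fintype.card_fin, nsmul_eq_mul] at h1
  rw [← card_sl, ← card_fl_eq] at h1
  rw [← mul_exp_le, pow_succ, mul_assoc] at h
  have h2 := le_of_mul_le_mul_left (h.trans h1) (by positivity)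
  nlinarith [mul_le_mul_of_nonneg_left (two_le_exp (by linarith : - (3 * η) + 1 ≤ - (2 * η))) hK.le]

theorem solve0 {a z y y0 b b0 : Fin m → ℝ} {s η ρ : ℝ} (hs : exp (- η) ≤ |s|)
    (h : ‖y + s • a + b - z‖ + ‖y - y0‖ + ‖b - b0‖ ≤ ρ) :
    ‖a - s⁻¹ • (z - y0 - b0)‖ ≤ exp η * ρ := by
  have s0 : s ≠ 0 := abs_pos.1 ((exp_pos _).trans_le hs)
  have e0 : a - s⁻¹ • (z - y0 - b0) = s⁻¹ • ((y + s • a + b - z) - (y - y0) - (b - b0)) := by
    match_scalars <;> field_simp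
    all_goals ring
  rw [e0]
  exact norm_inv_smul_le hs ((norm_sub_le _ _).trans
    ((add_le_add_left (norm_sub_le _ _) _).trans h))

variable {Ω : Type} [Fintype Ω] {ℓ : ℝ} {K : ℕ} {μ : Ω → ℝ} {x : Ω → Fin m → ℝ} {w n : ℝ}

theorem FA.unif {a : Ω → Fin k → Fin m → ℝ} {S : Ω → Finset (Fin k → Fin K)}
    {Z : (Fin k → Fin K) → Finset (Fin m → ℝ)} (hP : FA ℓ K μ x a S w Z n) : ∃ S' Z',
    FA (2 * ℓ) K μ x a S' w Z' (n + 2 * ℓ) ∧ ∀ q, ((Z' q).card : ℝ) ≤ exp (n + 2 * ℓ) := by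
  have k0 := Nat.cast_nonneg (α := ℝ) k
  have hl := hP.l1
  have hle : exp ℓ ≤ exp (2 * ℓ) := exp_le_exp.2 (by linarith)
  have hz : ∀ q, ((fl (Z q) fun _ => ((Z q).card : ℝ) ≤ exp (n + 2 * ℓ)).card : ℝ) ≤
      exp (n + 2 * ℓ) := fun r => by
    by_cases h1 : ((Z r).card : ℝ) ≤ exp (n + 2 * ℓ)
    · exact (card_fl_le _ _).trans h1
    · rw [eq_empty_of_forall_notMem fun z (hz : z ∈ fl (Z r) _) => h1 (mem_fl.1 hz).2, card_empty,
        Nat.cast_zero]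
      exact (exp_pos _).le
  refine ⟨fun ω => fl (S ω) fun z => ((Z z).card : ℝ) ≤ exp (n + 2 * ℓ), _, ⟨by linarith, hP.pos,
    fun ω => (hP.an ω).trans (mul_le_mul_of_nonneg_right hle (Nat.cast_nonneg _)),
    fun ω hω => den_good (subset_univ _) _ (fun _ => Nat.cast_nonneg _) (by positivity)
      (by linarith) hP.zn (hP.den ω hω), hP.c3, fun ω hω q hq => ?_,
      sum_bound (card_par k K) fun q _ => hz q⟩, hz⟩
  obtain ⟨z, z1, z2⟩ := hP.cov ω hω q (mem_fl.1 hq).1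
  exact ⟨z, mem_fl.2 ⟨z1, (mem_fl.1 hq).2⟩, z2.trans hle⟩

theorem AHp.core {p : ℝ} (h : AHp m k p) {a : Ω → Fin (k + 1) → Fin m → ℝ}
    {S : Ω → Finset (Fin (k + 1) → Fin K)} {Z : (Fin (k + 1) → Fin K) → Finset (Fin m → ℝ)}
    (hP : FA ℓ K μ x a S w Z n) (hz : ∀ q, ((Z q).card : ℝ) ≤ exp n)
    (hK : exp (p * (2 * ℓ)) ≤ K) (q : Fin (k + 1) → Fin K) (i : Fin K)
    (hs : K * exp (- (3 * ℓ)) ≤ |((i : ℕ) : ℝ) - (q 0 : ℕ)|) :
    ms μ (fun ω => q ∈ S ω ∧ (K : ℝ) ^ k ≤ exp (2 * ℓ) * (sl (S ω) i).card) ≤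
      exp n * exp ((k + 1 + 1) * (m * (5 * ℓ + 2)) + w + (k + 1) * (n + p * (2 * ℓ))) := by
  have k0 := Nat.cast_nonneg (α := ℝ) k
  have hl := hP.l1
  have hμ := hP.pos
  have hK0 : (0 : ℝ) < K := (exp_pos _).trans_le hK
  push_cast at hl
  have hX := le_exp_of hl
  have hle : exp ℓ ≤ exp (2 * ℓ) := exp_le_exp.2 (by linarith)
  refine ms_cover_le hμ (Z q) (fun z ω => (K : ℝ) ^ k ≤ exp (2 * ℓ) * (sl (S ω) i).card ∧
    ‖fp K x a q ω - z‖ ≤ exp ℓ) (fun ω h1 h2 => ?_) (fun z _ => ?_) (exp_pos _).le (hz q)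
  · obtain ⟨z, z1, z2⟩ := hP.cov ω h1 q h2.1
    exact ⟨z, z1, h2.2, z2⟩
  set E : Ω → Prop := fun ω => (K : ℝ) ^ k ≤ exp (2 * ℓ) * (sl (S ω) i).card ∧
    ‖fp K x a q ω - z‖ ≤ exp ℓ with hE
  have hE1 : ∀ ω, ind (E ω) * μ ω ≠ 0 → E ω ∧ μ ω ≠ 0 := fun ω h5 =>
    ⟨by_contra fun h6 => h5 (by rw [ind_neg h6, zero_mul]), right_ne_zero_of_mul h5⟩
  refine h (2 * ℓ) K Ω (fun ω => ind (E ω) * μ ω) (fun ω => x ω + (((i : ℕ) : ℝ) / K) • a ω 0)
    (fun ω j => a ω j.succ) (fun ω => sl (S ω) i) _ (fun q' => Z (Fin.cons i q')) n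
    ⟨by linarith, ind_mul_nonneg hμ E, fun ω => (tail_le _).trans ((hP.an ω).trans
      (mul_le_mul_of_nonneg_right hle hK0.le)), fun ω h1 => (hE1 ω h1).1.1, fun z1 z2 => ?_,
      fun ω h1 q' h2 => ?_, sum_bound (card_par k K) fun _ _ => hz _⟩ hK
  · rw [ms_ind]
    set a0 := ((((q 0 : ℕ) : ℝ) - (i : ℕ)) / K)⁻¹ • (z - z1 - ∑ j : Fin k,
      (((q j.succ : ℕ) : ℝ) / K) • z2 j) with ha0
    have c := concG hμ hP.c3 (by linarith : 0 ≤ 5 * ℓ) (z1 - (((i : ℕ) : ℝ) / K) • a0)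
      (Fin.cons a0 z2)
    push_cast at c
    refine (ms_mono hμ fun ω _ h2 => ?_).trans c
    have e1 : fp K x a q ω = x ω + (((i : ℕ) : ℝ) / K) • a ω 0 +
        ((((q 0 : ℕ) : ℝ) - (i : ℕ)) / K) • a ω 0 +
          ∑ j : Fin k, (((q j.succ : ℕ) : ℝ) / K) • a ω j.succ := by
      rw [fp, Fin.sum_univ_succ, sub_div]
      module
    have b1 := sum_close (fun j : Fin k => par_le (q j.succ)) h2.2.2
    have b2 := h2.1.2
    rw [e1] at b2
    have b3 : ‖a ω 0 - a0‖ ≤ exp (3 * ℓ) * exp (2 * ℓ) :=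
      solve0 (sep_div hK0 (by rwa [abs_sub_comm])) ((add_le_add (add_le_add b2 h2.2.1) b1).trans
        (by linarith [two_le_exp (by linarith : ℓ + 1 ≤ 2 * ℓ)]))
    rw [← exp_add, show 3 * ℓ + 2 * ℓ = 5 * ℓ by ring] at b3
    have x1 : 1 ≤ exp (5 * ℓ) := one_le_exp (by linarith)
    refine ⟨?_, cons_close (by linarith) (h2.2.2.trans (by linarith))⟩
    have e0 : x ω - (z1 - (((i : ℕ) : ℝ) / K) • a0) =
        (x ω + (((i : ℕ) : ℝ) / K) • a ω 0 - z1) - (((i : ℕ) : ℝ) / K) • (a ω 0 - a0) := by module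
    rw [e0]
    refine (norm_sub_le _ _).trans ?_
    rw [norm_smul, Real.norm_eq_abs]
    linarith [mul_le_mul (par_le i) b3 (norm_nonneg _) zero_le_one, h2.2.1]
  · obtain ⟨z, z1, z2⟩ := hP.cov ω (hE1 ω h1).2 _ (mem_fl.1 h2).2
    exact ⟨z, z1, (fp_cons x a i q' ω ▸ z2).trans hle⟩

theorem AH (k : ℕ) : ∃ p : ℝ, 1 ≤ p ∧ AHp m k p := by
  have m0 := Nat.cast_nonneg (α := ℝ) m
  induction k with
  | zero =>
    refine ⟨1 + 4 * m, by linarith, fun ℓ K Ω _ μ x a S w Z n hP hK => ?_⟩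
    have hl := hP.l1
    push_cast at hl
    refine (hP.triv ((one_le_exp (by nlinarith)).trans hK)).trans (exp_le_exp.2 ?_)
    push_cast
    linarith
  | succ k ih =>
    obtain ⟨p, p1, h⟩ := ih
    refine ⟨4 * p + 14 + 12 * m, by linarith, fun ℓ K Ω _ μ x a S w Z n hP hK => ?_⟩
    have k0 := Nat.cast_nonneg (α := ℝ) k
    have hl := hP.l1
    push_cast at hl
    have hK0 : (0 : ℝ) < K := (exp_pos _).trans_le hK
    have a1 : 0 ≤ p * ℓ := mul_nonneg (by linarith) (by linarith)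
    have a2 : 10 * (m : ℝ) ≤ m * ℓ := by nlinarith
    obtain ⟨S', Z', hU, hz⟩ := hP.unif
    have h3 : 1 ≤ K * exp (- (3 * (2 * ℓ))) :=
      one_le_mul_exp ((exp_le_exp.2 (by linarith)).trans hK)
    have k1 := sum_den hP.pos (S := fun ω => fl univ fun z : (Fin (k + 1) → Fin K) × Fin K =>
      (z.1 ∈ S' ω ∧ (K : ℝ) ^ k ≤ exp (2 * (2 * ℓ)) * (sl (S' ω) z.2).card) ∧
        K * exp (- (3 * (2 * ℓ))) ≤ |((z.2 : ℕ) : ℝ) - (z.1 0 : ℕ)|) (fun _ => subset_univ _)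
      (N := K ^ (k + 1) * K) (ℓ := 6 * ℓ) fun ω hω => ?_
    · have k2 := k1.trans (sum_bound (N := K ^ (k + 1) * K) (by simp) fun z _ =>
        (?_ : _ ≤ exp (n + 2 * ℓ) * exp ((k + 1 + 1) * (m * (5 * (2 * ℓ) + 2)) + w +
          (k + 1) * (n + 2 * ℓ + p * (2 * (2 * ℓ))))))
      · rw [mul_assoc] at k2
        have k3 := le_of_mul_le_mul_left k2 (by positivity)
        rw [mul_comm, mul_exp_le, ← exp_add, ← exp_add] at k3
        refine k3.trans (exp_le_exp.2 ?_)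
        push_cast
        nlinarith [mul_nonneg k0 a1, mul_le_mul_of_nonneg_left a2 k0,
          mul_nonneg k0 (by linarith : 0 ≤ ℓ), mul_nonneg k0 m0]
      by_cases hs : K * exp (- (3 * (2 * ℓ))) ≤ |((z.2 : ℕ) : ℝ) - (z.1 0 : ℕ)|
      · exact (ms_mono hP.pos fun ω _ h2 => (mem_fl.1 h2).2.1).trans
          (h.core hU hz ((exp_le_exp.2 (by linarith)).trans hK) _ _ hs)
      · exact (ms_eq_zero fun ω _ h2 => hs (mem_fl.1 h2).2.2).le.trans (by positivity)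
    have d1 := hU.den ω hω
    have d2 := dense_sl hK0 (by linarith) d1
    have d3 : ∀ q : Fin (k + 1) → Fin K, K * exp (- (4 * ℓ)) ≤ ∑ i : Fin K,
        ind ((K : ℝ) ^ k ≤ exp (2 * (2 * ℓ)) * (sl (S' ω) i).card ∧
          K * exp (- (3 * (2 * ℓ))) ≤ |((i : ℕ) : ℝ) - (q 0 : ℕ)|) := fun q => by
      have d4 := card_close K (q 0 : ℕ) _ h3
      rw [← card_fin, card_fl_eq] at d4
      rw [card_fl_eq] at d2
      have d5 : ∑ i : Fin K, ind ((K : ℝ) ^ k ≤ exp (3 * ℓ) * (sl (S' ω) i).card) ≤ _ :=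
        (sum_le_sum fun i _ => (?_ : _ ≤ ind ((K : ℝ) ^ k ≤ exp (2 * (2 * ℓ)) * (sl (S' ω) i).card ∧
          K * exp (- (3 * (2 * ℓ))) ≤ |((i : ℕ) : ℝ) - (q 0 : ℕ)|) +
          ind (¬ K * exp (- (3 * (2 * ℓ))) ≤ |((i : ℕ) : ℝ) - (q 0 : ℕ)|))).trans_eq
          sum_add_distrib
      · have d6 := mul_le_mul_of_nonneg_left (two_le_exp (by linarith :
          - (4 * ℓ) + 1 ≤ - (3 * ℓ))) hK0.le
        have d7 := mul_le_mul_of_nonneg_left (c2_le_exp (by linarith :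
          - (3 * (2 * ℓ)) + 2 ≤ - (4 * ℓ))) hK0.le
        linarith
      by_cases hs : K * exp (- (3 * (2 * ℓ))) ≤ |((i : ℕ) : ℝ) - (q 0 : ℕ)|
      · rw [ind_neg (not_not.2 hs), add_zero]
        exact ind_mono fun h2 => ⟨h2.trans (mul_le_mul_of_nonneg_right
          (exp_le_exp.2 (by linarith)) (Nat.cast_nonneg _)), hs⟩
      · rw [ind_pos hs]
        exact le_add_of_nonneg_of_le (ind_nonneg _) (ind_le_one _)
    rw [card_fl_eq, Fintype.sum_prod_type]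
    simp only [and_assoc, ind_and (_ ∈ S' ω), ← mul_sum]
    have d8 := sum_le_sum fun q (_ : q ∈ univ) =>
      mul_le_mul_of_nonneg_left (d3 q) (ind_nonneg (q ∈ S' ω))
    rw [← sum_mul, ← card_ind] at d8
    refine le_trans ?_ (mul_le_mul_of_nonneg_left d8 (exp_pos _).le)
    have e1 : exp (6 * ℓ) * exp (- (4 * ℓ)) = exp (2 * ℓ) := by rw [← exp_add]; congr 1; ring
    calc (K : ℝ) ^ (k + 1) * K ≤ exp (2 * ℓ) * (S' ω).card * K :=
          mul_le_mul_of_nonneg_right d1 hK0.le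
      _ = _ := by rw [← e1]; ring

end Pool.Agent.Work.MP_72ad00_an.F
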