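import Pool.Agent.Work.MP_72ad00_an.F.F1

/-!
Light labels for pairs of flats through a common cell.
-/

set_option autoImplicit false

open Finset Real

namespace Pool.Agent.Work.MP_72ad00_an.F

open Pool.Agent.Lib.PFR H

variable {m k : ℕ} {Ω : Type}

/-- A direction of a flat. -/
noncomputable def dr (K : ℕ) (a : Ω → Fin k → Fin m → ℝ) (e : Fin k → Fin K) (ω : Ω) :
    Fin m → ℝ := ∑ i, cf K (e i) • a ω i

/-- The label of a line in a flat. -/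
noncomputable def LA (K : ℕ) (x : Ω → Fin m → ℝ) (a : Ω → Fin k → Fin m → ℝ)
    (p e : Fin k → Fin K) (ω : Ω) : (Fin m → ℝ) × (Fin m → ℝ) :=
  (cell (dr K a e ω), cell (fp K x a p ω))

/-- The label of a pair of directions. -/
noncomputable def LB (K : ℕ) (a : Ω → Fin k → Fin m → ℝ) (e e' : Fin k → Fin K) (v : Ω × Ω) :
    (Fin m → ℝ) × (Fin m → ℝ) := (cell (dr K a e' v.2), cell (dr K a e v.1))

/-- The label of a difference of directions. -/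
noncomputable def LN (K : ℕ) (a : Ω → Fin k → Fin m → ℝ) (e e' : Fin k → Fin K) (v : Ω × Ω) :
    Fin m → ℝ := cell (dr K a e v.1 - dr K a e' v.2)

theorem four_le' {E : Type} [NormedAddCommGroup E] [NormedSpace ℝ E] {a z : E}
    (h : ‖(4 : ℝ) • a - z‖ ≤ 1) : ‖a - (4 : ℝ)⁻¹ • z‖ ≤ 1 := by
  have e : a - (4 : ℝ)⁻¹ • z = (4 : ℝ)⁻¹ • ((4 : ℝ) • a - z) := by module
  rw [e, norm_smul, Real.norm_eq_abs, abs_of_pos (by norm_num)]
  linarith [norm_nonneg ((4 : ℝ) • a - z)]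

theorem four_norm' {E : Type} [NormedAddCommGroup E] [NormedSpace ℝ E] {a : E} {ℓ L K : ℝ}
    (hl : ℓ + 2 ≤ L) (hK : 0 ≤ K) (h : ‖a‖ ≤ exp ℓ * K) : ‖(4 : ℝ) • a‖ ≤ exp L * K := by
  rw [norm_smul, Real.norm_eq_abs, abs_of_pos (by norm_num)]
  nlinarith [mul_le_mul_of_nonneg_right (c2_le_exp hl) hK, mul_nonneg (exp_pos ℓ).le hK]

theorem dr_le {K : ℕ} {a : Ω → Fin k → Fin m → ℝ} {ℓ : ℝ} (hl : 10 + (k : ℝ) ≤ ℓ) {ω : Ω}
    (h : ‖a ω‖ ≤ exp ℓ * K) (e : Fin k → Fin K) : ‖dr K a e ω‖ ≤ exp (2 * ℓ) * K := by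
  have h1 := sum_close (fun i => cf_le (e i).2) (u := a ω) (v := 0) (ρ := exp ℓ * K)
    (by rwa [sub_zero])
  simp only [Pi.zero_apply, smul_zero, sum_const_zero, sub_zero] at h1
  refine h1.trans ?_
  rw [two_mul ℓ, exp_add, mul_assoc, ← mul_assoc]
  exact mul_le_mul_of_nonneg_right (by linarith [le_exp_of hl, Nat.cast_nonneg (α := ℝ) k])
    (by positivity)

theorem solve1 {a : Fin (k + 1) → Fin m → ℝ} {s ℓ : ℝ} {c : Fin k → ℝ} {z : Fin m → ℝ}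
    {u : Fin k → Fin m → ℝ} (hl : 10 + ((k : ℝ) + 1) ≤ ℓ) (hs : exp (- (8 * ℓ)) ≤ |s|)
    (hc : ∀ j, |c j| ≤ 2) (h1 : ‖s • a 0 + ∑ j, c j • a j.succ - z‖ ≤ 1)
    (h2 : ‖(fun j => a j.succ) - u‖ ≤ 1) :
    ‖a - (Fin.cons (s⁻¹ • (z - 0 - ∑ j, c j • u j)) u : Fin (k + 1) → Fin m → ℝ)‖ ≤
      exp (9 * ℓ) := by
  have k0 := Nat.cast_nonneg (α := ℝ) k
  refine cons_close ?_ (h2.trans (one_le_exp (by linarith)))
  rw [show 9 * ℓ = 8 * ℓ + ℓ by ring, exp_add]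
  refine solve0 (y := 0) (b := ∑ j, c j • a j.succ) hs ?_
  rw [zero_add, sub_zero, norm_zero]
  linarith [sum_close hc h2, le_exp_of hl]

theorem dr_solve {K : ℕ} (hK : (0 : ℝ) < K) {ℓ : ℝ} (hl : 10 + ((k : ℝ) + 1) ≤ ℓ)
    (a : Ω → Fin (k + 1) → Fin m → ℝ) {e : Fin (k + 1) → Fin K} (hs : sp K (8 * ℓ) (e 0))
    (u : Fin m → ℝ) (z : Fin k → Fin m → ℝ) : ∃ a0 : Fin (k + 1) → Fin m → ℝ, ∀ ω,
      cell (dr K a e ω) = u → ‖(fun j => a ω j.succ) - z‖ ≤ 1 → ‖a ω - a0‖ ≤ exp (9 * ℓ) := by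
  refine ⟨_, fun ω h2 h3 => solve1 (z := u) hl (cf_ge hK hs) (fun j => cf_le (e j.succ).2) ?_ h3⟩
  have := norm_of_cell h2
  rwa [dr, Fin.sum_univ_succ] at this

variable [Fintype Ω]

/-- A family of flats with uniformly few cells and uniform directions. -/
structure FU (ℓ : ℝ) (K : ℕ) (μ : Ω → ℝ) (x : Ω → Fin m → ℝ) (a : Ω → Fin k → Fin m → ℝ)
    (S : Ω → Finset (Fin k → Fin K)) (w t : ℝ) (Z : (Fin k → Fin K) → Finset (Fin m → ℝ))
    (c : (Fin k → Fin K) → Ω → Fin m → ℝ) (n : ℝ) : Prop where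
  fa : FA ℓ K μ x a S w Z n
  zc : ∀ q, ((Z q).card : ℝ) ≤ exp n
  cov : ∀ ω, μ ω ≠ 0 → ∀ q ∈ S ω, c q ω ∈ Z q ∧ ‖fp K x a q ω - c q ω‖ ≤ exp ℓ
  tot : ∑ ω, μ ω = exp t
  c2 : ∀ z, ms μ (fun ω => ‖a ω - z‖ ≤ 1) ≤ exp (t + ℓ - k * (m * log K))

/-- Pairs of flats through a common cell. -/
noncomputable def vp {P : Type} (μ : Ω → ℝ) (S : Ω → Finset P) (c : P → Ω → Fin m → ℝ) (θ : ℝ)
    (p : P) : Ω × Ω → ℝ := gv μ (fun ω => p ∈ S ω) (c p) θ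

variable {ℓ L : ℝ} {K : ℕ} {μ : Ω → ℝ} {x : Ω → Fin m → ℝ} {a : Ω → Fin (k + 1) → Fin m → ℝ}
  {S : Ω → Finset (Fin (k + 1) → Fin K)} {w t n : ℝ}
  {Z : (Fin (k + 1) → Fin K) → Finset (Fin m → ℝ)} {c : (Fin (k + 1) → Fin K) → Ω → Fin m → ℝ}

theorem FU.l1 (h : FU ℓ K μ x a S w t Z c n) : 10 + ((k : ℝ) + 1) ≤ ℓ := by
  exact_mod_cast h.fa.l1

theorem FU.close (h : FU ℓ K μ x a S w t Z c n) {θ : ℝ} {p : Fin (k + 1) → Fin K} {v : Ω × Ω}
    (hv : vp μ S c θ p v ≠ 0) : ‖fp K x a p v.2 - fp K x a p v.1‖ ≤ 2 * exp ℓ := by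
  obtain ⟨a1, a2, a3, a4, a5⟩ := gv_ne hv
  have h2 := (h.cov _ a1 p a3).2
  have h3 := (h.cov _ a2 p a4).2
  rw [a5] at h3
  rw [← sub_sub_sub_cancel_right _ _ (c p v.1), two_mul]
  exact (norm_sub_le _ _).trans (add_le_add h3 h2)

theorem num {ℓ : ℝ} (hl : 10 + ((k : ℝ) + 1) ≤ ℓ) (m : ℕ) : 0 ≤ (m : ℝ) ∧ 0 ≤ (k : ℝ) ∧
    0 ≤ (k : ℝ) * m ∧ 10 * (m : ℝ) ≤ m * ℓ ∧ 10 * ((k : ℝ) * m) ≤ k * (m * ℓ) := by
  have m0 := Nat.cast_nonneg (α := ℝ) m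
  have k0 := Nat.cast_nonneg (α := ℝ) k
  have f0 : 10 * (m : ℝ) ≤ m * ℓ := by nlinarith
  exact ⟨m0, k0, mul_nonneg k0 m0, f0, by nlinarith [mul_le_mul_of_nonneg_left f0 k0]⟩

theorem FU.dir2 (h : FU ℓ K μ x a S w t Z c n) (hK : (0 : ℝ) < K) {e : Fin (k + 1) → Fin K}
    (h1 : sp K (8 * ℓ) (e 0)) (z : Fin m → ℝ) (u : Fin k → Fin m → ℝ) :
    ms μ (fun ω => cell (dr K a e ω) = z ∧ ‖(fun j => a ω j.succ) - u‖ ≤ 1) ≤
      exp (t + ℓ - (k + 1) * (m * log K) + 10 * ((k + 1) * (m * ℓ))) := by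
  obtain ⟨m0, k0, km, f0, f1⟩ := num h.l1 m
  have hl := h.l1
  obtain ⟨a0, ha0⟩ := dr_solve hK hl a h1 z u
  refine (ms_mono h.fa.pos fun ω _ h2 => (ha0 ω h2.1 h2.2).trans
    (by linarith [exp_pos (9 * ℓ)])).trans ((concF0 h.fa.pos h.c2 (by linarith : 0 ≤ 9 * ℓ) a0).trans
    (exp_le_exp.2 ?_))
  push_cast
  linarith

theorem FU.dir (h : FU ℓ K μ x a S w t Z c n) (hK : (1 : ℝ) ≤ K) {e : Fin (k + 1) → Fin K}
    (h1 : sp K (8 * ℓ) (e 0)) (z : Fin m → ℝ) : ms μ (fun ω => cell (dr K a e ω) = z) ≤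
      exp (t - m * log K + (ℓ + 12 * ((k + 1) * (m * ℓ)))) := by
  obtain ⟨m0, k0, km, f0, f1⟩ := num h.l1 m
  have hl := h.l1
  obtain ⟨A, a1, a2⟩ := dir_cellsF (m := m) (k := k) hK (by linarith : 0 ≤ ℓ)
  refine (ms_cover_le h.fa.pos A _ (fun ω _ h2 => ⟨_, a2 _ ((tail_le _).trans (h.fa.an ω)), h2,
    norm_sub_cellF _⟩) (fun u _ => h.dir2 (by linarith) h1 z u) (exp_pos _).le a1).trans
    (exp_mul_le ?_)
  linarith

theorem three_exp {t ℓ X y z : ℝ} (hX : X ≤ exp t) (h1 : y ≤ t - 10 * ℓ) (h2 : z ≤ t - 10 * ℓ) :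
    exp (- (10 * ℓ)) * X + (exp y + exp z) ≤ 3 * exp (t - 10 * ℓ) := by
  have h3 := (mul_le_mul_of_nonneg_left hX (exp_pos (- (10 * ℓ))).le).trans
    (exp_mul_le (by linarith : - (10 * ℓ) + t ≤ t - 10 * ℓ))
  linarith [exp_le_exp.2 h1, exp_le_exp.2 h2]

theorem light_A {κ p : ℝ} (h : RFp m k κ p) (h0 : 0 ≤ κ) (h1 : κ ≤ 1)
    (hU : FU ℓ K μ x a S w t Z c n) (hL : 20 * ℓ + 40 * ((k + 1) * (m * ℓ)) ≤ L)
    (hK : exp (p * L) ≤ K) (hK1 : (1 : ℝ) ≤ K) {g : ℝ}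
    (hg : (p + 2) * L + t - (2 - (k + 2) * κ) * (m * log K) - κ * (t - w) ≤ g)
    (e : Fin (k + 1) → Fin K) :
    ∑ q, ms μ (fun ω => sp K (8 * ℓ) (e 0) ∧ Hv μ (LA K x a q e) g ω) ≤
      K ^ (k + 1) * (3 * exp (t - 10 * ℓ)) := by
  obtain ⟨m0, k0, km, f0, f1⟩ := num hU.l1 m
  have hl := hU.l1
  have hμ := hU.fa.pos
  have hK0 : (0 : ℝ) < K := by linarith
  by_cases hs : sp K (8 * ℓ) (e 0)
  swap
  · rw [sum_eq_zero fun j _ => ms_eq_zero fun _ _ h2 => hs h2.1]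
    positivity
  simp only [hs, true_and]
  rw [sum_cons, pow_succ', mul_assoc]
  refine sum_bound (by simp) fun i _ => ?_
  rw [← sum_card_fl]
  choose A hA1 hA2 using fun q : Fin k → Fin K =>
    exists_heavy hμ (LA K x a (Fin.cons i q) e) (g := g) hU.tot.le
  obtain ⟨B, b1, b2⟩ := dir_cells (m := m) hK1 (by linarith : 0 ≤ 2 * ℓ)
  have x1 : 1 ≤ exp (9 * ℓ) := one_le_exp (by linarith)
  refine (gcond hμ _ (fun ω => cell (dr K a e ω)) A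
    (fp K (fun ω => x ω + (((i : ℕ) : ℝ) / K) • a ω 0) fun ω j => a ω j.succ) (ℓ := 10 * ℓ)
    (r := exp L) (n := t - g) (τ := t - 10 * ℓ - (m * log K + m * (2 * ℓ + 2)))
    (Y := p * L - (1 - (k + 1) * κ) * (m * log K) + κ * (w + 20 * ((k + 1) * (m * ℓ))))
    (card_par k K) (by positivity) h1 (fun ω _ q hq => ⟨_, hA2 q ω (mem_fl.1 hq).2, ?_⟩)
    (sum_bound (card_par k K) fun q _ => hA1 q) (hU.dir hK1 hs) B b1
    (fun ω => b2 _ (dr_le hU.fa.l1 (hU.fa.an ω) e))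
    fun u ν Z' n' t' n0 n1 n2 n3 n4 n5 n6 => ?_).trans
    (mul_le_mul_of_nonneg_left (three_exp hU.tot.le (by linarith) ?_) (by positivity))
  · rw [← fp_cons]
    exact (norm_sub_cell _).trans (one_le_exp (by linarith))
  · have key := h L K Ω ν _ _ _ (w + 20 * ((k + 1) * (m * ℓ))) Z' n' t' ⟨by linarith, n0,
      fun ω => (tail_le _).trans ((hU.fa.an ω).trans (mul_le_mul_of_nonneg_right
        (exp_le_exp.2 (by linarith)) hK0.le)),
      fun ω h2 => (n1 ω h2).trans (mul_le_mul_of_nonneg_right (exp_le_exp.2 (by linarith))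
        (Nat.cast_nonneg _)), fun z z' => (n2 _).trans ?_, n3, n4⟩ hK
      (fun z => (n2 _).trans ((hU.dir2 hK0 hs u z).trans (exp_le_exp.2 (by linarith)))) n5.ge
    · linarith
    obtain ⟨a0, ha0⟩ := dr_solve hK0 hl a hs u z'
    refine (ms_mono hμ fun ω _ h2 => ⟨?_, (ha0 ω h2.1 h2.2.2).trans (by linarith)⟩).trans
      ((concG hμ hU.fa.c3 (by linarith : 0 ≤ 9 * ℓ) (z - (((i : ℕ) : ℝ) / K) • a0 0) a0).trans
        (exp_le_exp.2 (by push_cast; linarith)))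
    have e0 : x ω - (z - (((i : ℕ) : ℝ) / K) • a0 0) =
        (x ω + (((i : ℕ) : ℝ) / K) • a ω 0 - z) - (((i : ℕ) : ℝ) / K) • (a ω - a0) 0 := by
      rw [Pi.sub_apply]
      module
    rw [e0]
    refine (norm_sub_le _ _).trans ?_
    rw [norm_smul, Real.norm_eq_abs]
    linarith [mul_le_mul (par_le i) ((norm_le_pi_norm _ 0).trans (ha0 ω h2.1 h2.2.2))
      (norm_nonneg _) zero_le_one, h2.2.1]
  · have f2 := mul_le_mul_of_nonneg_right h1 (by linarith : 0 ≤ 20 * ((k + 1 : ℝ) * (m * ℓ)))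
    have f3 := mul_nonneg h0 (by linarith : 0 ≤ ℓ + 12 * ((k + 1 : ℝ) * (m * ℓ)))
    linarith

theorem vp_le {P : Type} {S : Ω → Finset P} {c : P → Ω → Fin m → ℝ} (hμ : ∀ ω, 0 ≤ μ ω) (p : P)
    (u v : Ω) :
    vp μ S c (exp (t - n - 10 * ℓ)) p (u, v) ≤ exp (10 * ℓ + n - t) * μ u * μ v := by
  refine (gv_le hμ (exp_pos _) u v).trans (le_of_eq ?_)
  rw [← exp_neg]
  congr 3
  ring

theorem light_J (hU : FU ℓ K μ x a S w t Z c n) (hL : 20 * ℓ + 40 * ((k + 1) * (m * ℓ)) ≤ L)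
    (g : ℝ) (p e : Fin (k + 1) → Fin K) (z1 : Fin (k + 1) → Fin m → ℝ) (z3 : Fin m → ℝ) :
    ms (vp μ S c (exp (t - n - 10 * ℓ)) p) (fun v => ¬ Hv μ (LA K x a p e) g v.2 ∧
      ‖a v.1 - z1‖ ≤ 2 * exp (9 * ℓ) ∧ ‖dr K a e v.2 - z3‖ ≤ 2 * exp (9 * ℓ)) ≤
      exp (L + n - (k + 1) * (m * log K) + g) := by
  obtain ⟨m0, k0, km, f0, f1⟩ := num hU.l1 m
  have hl := hU.l1
  have hμ := hU.fa.pos
  refine (ms2_le hμ hμ (exp_pos _).le (fun u v hv h2 => ⟨⟨h2.2.1, h2.1, h2.2.2,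
    (hU.close hv).trans (by linarith [exp_le_exp.2 (by linarith : ℓ ≤ 9 * ℓ)])⟩, vp_le hμ p u v⟩)
    (concF0 hμ hU.c2 (by linarith) z1)
    (fun u => light2 hμ _ _ g (by linarith) z3 (fp K x a p u)) (exp_pos _).le).trans ?_
  simp only [← exp_add]
  exact exp_le_exp.2 (by push_cast; linarith)

theorem light_B {q γ : ℝ} (h : AHp m k q) (hγ : (k + 1) * γ = 1) (hU : FU ℓ K μ x a S w t Z c n)
    (hL : 20 * ℓ + 40 * ((k + 1) * (m * ℓ)) ≤ L) (hK : exp (q * L) ≤ K) (hK1 : (1 : ℝ) ≤ K)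
    {g g' : ℝ} (hg : (q + 2) * L + t - 2 * (m * log K) + γ * (n + g + m * log K - t) ≤ g')
    (p e : Fin (k + 1) → Fin K) :
    ∑ e0, ms (vp μ S c (exp (t - n - 10 * ℓ)) p) (fun v =>
      (sp K (8 * ℓ) (e0 0) ∧ sp K (8 * ℓ) (e 0)) ∧ ¬ Hv μ (LA K x a p e) g v.2 ∧
        Hv (vp μ S c (exp (t - n - 10 * ℓ)) p) (LB K a e0 e) g' v) ≤
      K ^ (k + 1) * (3 * exp (t - 10 * ℓ)) := by
  obtain ⟨m0, k0, km, f0, f1⟩ := num hU.l1 m
  have hl := hU.l1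
  have hμ := hU.fa.pos
  have hK0 : (0 : ℝ) < K := by linarith
  have g0 : 0 < γ := by
    by_contra h2
    nlinarith
  have g1 : γ ≤ 1 := by nlinarith
  rw [sum_cons, pow_succ', mul_assoc]
  refine sum_bound (by simp) fun j _ => ?_
  simp only [Fin.cons_zero]
  by_cases hs : sp K (8 * ℓ) j ∧ sp K (8 * ℓ) (e 0)
  swap
  · rw [sum_eq_zero fun j _ => ms_eq_zero fun _ _ h2 => hs h2.1]
    positivity
  set V := vp μ S c (exp (t - n - 10 * ℓ)) p with hV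
  have hV0 : ∀ v, 0 ≤ V v := gv_nonneg hμ (exp_pos _)
  have hVt : ∑ v, V v ≤ exp t := (gv_sum_le hμ (exp_pos _)).trans hU.tot.le
  have hν0 := ind_mul_nonneg hV0 fun v => ¬ Hv μ (LA K x a p e) g v.2
  have hνt : ∑ v, ind (¬ Hv μ (LA K x a p e) g v.2) * V v ≤ exp t := (ms_le_sum hV0 _).trans hVt
  simp only [hs, true_and, ← ms_ind V]
  rw [← sum_card_fl]
  choose A hA1 hA2 using fun i : Fin k → Fin K =>
    exists_heavy hV0 (LB K a (Fin.cons j i) e) (g := g') hVt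
  obtain ⟨B, b1, b2⟩ := dir_cells (m := m) hK1 (by linarith : 0 ≤ 2 * ℓ)
  have x1 : 1 ≤ exp (9 * ℓ) := one_le_exp (by linarith)
  refine (gcond hν0 _ (fun v : Ω × Ω => cell (dr K a e v.2)) A
    (fp K (fun v => cf K j • a v.1 0 + ∑ i : Fin k, (- 2 : ℝ) • a v.1 i.succ)
      fun v => (4 : ℝ) • fun i : Fin k => a v.1 i.succ) (ℓ := 10 * ℓ)
    (r := exp L) (n := t - g') (τ := t - 10 * ℓ - (m * log K + m * (2 * ℓ + 2)))
    (w0 := t - m * log K + (ℓ + 12 * ((k + 1) * (m * ℓ))))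
    (Y := q * L + γ * (L + n - (k + 1) * (m * log K) + g)) (card_par k K) (by positivity) g1
    (fun v _ i hi => ⟨cell (dr K a (Fin.cons j i) v.1), hA2 i v (mem_fl.1 hi).2, ?_⟩)
    (sum_bound (card_par k K) fun q _ => hA1 q) (fun u => ?_) B b1
    (fun v => b2 _ (dr_le hU.fa.l1 (hU.fa.an _) e))
    fun u ν Z' n' t' n0 n1 n2 n3 n4 n5 _ => ?_).trans
    (mul_le_mul_of_nonneg_left (three_exp hνt (by linarith) ?_) (by positivity))
  · have e0 : fp K (fun v : Ω × Ω => cf K j • a v.1 0 + ∑ i : Fin k, (- 2 : ℝ) • a v.1 i.succ)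
        (fun v => (4 : ℝ) • fun i : Fin k => a v.1 i.succ) i v = dr K a (Fin.cons j i) v.1 := by
      simp only [fp, dr, Fin.sum_univ_succ, Fin.cons_zero, Fin.cons_succ, add_assoc,
        ← sum_add_distrib, Pi.smul_apply]
      refine congrArg _ (sum_congr rfl fun i' _ => ?_)
      rw [cf]
      module
    rw [e0]
    exact (norm_sub_cell _).trans (one_le_exp (by linarith))
  · rw [ms_ind]
    exact (ms_mono hV0 fun _ _ h2 => h2.2).trans ((gv_snd hμ (exp_pos _)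
      fun ω => cell (dr K a e ω) = u).trans (hU.dir hK1 hs.2 u))
  · have key := h L K _ ν _ _ _ (L + n - (k + 1) * (m * log K) + g) Z' n' ⟨by linarith, n0,
      fun v => four_norm' (by linarith) hK0.le ((tail_le _).trans (hU.fa.an _)),
      fun ω h2 => (n1 ω h2).trans (mul_le_mul_of_nonneg_right (exp_le_exp.2 (by linarith))
        (Nat.cast_nonneg _)), fun z z' => (n2 _).trans ?_, n3, n4⟩ hK
    · rw [n5, exp_le_exp] at key
      have := mul_le_mul_of_nonneg_left key g0.le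
      have f4 : γ * ((k + 1) * (n' + q * L)) = n' + q * L := by
        rw [← mul_assoc, mul_comm γ, hγ, one_mul]
      rw [mul_add γ, f4] at this
      linarith
    rw [ms_ind]
    exact (ms_mono hV0 fun v _ h2 => ⟨h2.1, (solve1 hl (cf_ge hK0 hs.1) (fun _ => by norm_num)
      h2.2.2.1 (four_le' h2.2.2.2)).trans (by linarith),
      (norm_of_cell h2.2.1).trans (by linarith)⟩).trans (light_J hU hL g p e _ u)
  · have f2 := mul_le_mul_of_nonneg_left (by linarith : ℓ + 12 * ((k + 1 : ℝ) * (m * ℓ)) ≤ L)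
      (sub_nonneg.2 g1)
    have f3 : γ * ((k + 1) * (m * log K)) = m * log K := by rw [← mul_assoc, mul_comm γ, hγ, one_mul]
    linarith

theorem light_N {κ r : ℝ} (h : RFp m (k + 1) κ r) (h1 : κ ≤ 1) (hU : FU ℓ K μ x a S w t Z c n)
    (hL : 20 * ℓ + 40 * ((k + 1) * (m * ℓ)) ≤ L) (hK : exp (r * L) ≤ K) {g g' : ℝ}
    (hg : (r + 2) * L + t - m * log K + κ * (n + g + m * log K - t) ≤ g')
    (p e' : Fin (k + 1) → Fin K) :
    ∑ e, ms (vp μ S c (exp (t - n - 10 * ℓ)) p) (fun v => ¬ Hv μ (LA K x a p e') g v.2 ∧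
      Hv (vp μ S c (exp (t - n - 10 * ℓ)) p) (LN K a e e') g' v) ≤
      K ^ (k + 1) * (3 * exp (t - 10 * ℓ)) := by
  obtain ⟨m0, k0, km, f0, f1⟩ := num hU.l1 m
  have hl := hU.l1
  have hμ := hU.fa.pos
  have hK0 : (0 : ℝ) < K := (exp_pos _).trans_le hK
  set V := vp μ S c (exp (t - n - 10 * ℓ)) p with hV
  have hV0 : ∀ v, 0 ≤ V v := gv_nonneg hμ (exp_pos _)
  have hVt : ∑ v, V v ≤ exp t := (gv_sum_le hμ (exp_pos _)).trans hU.tot.le
  have hν0 := ind_mul_nonneg hV0 fun v => ¬ Hv μ (LA K x a p e') g v.2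
  have hνt : ∑ v, ind (¬ Hv μ (LA K x a p e') g v.2) * V v ≤ exp t := (ms_le_sum hV0 _).trans hVt
  simp only [← ms_ind V]
  rw [← sum_card_fl]
  choose A hA1 hA2 using fun e => exists_heavy hV0 (LN K a e e') (g := g') hVt
  have hX := (le_exp_of hl).trans (exp_le_exp.2 (by linarith : ℓ ≤ 9 * ℓ))
  refine (gcond hν0 _ (fun _ => ()) (fun e => univ ×ˢ A e)
    (fp K (fun v => - dr K a e' v.2 - ∑ i, (2 : ℝ) • a v.1 i) fun v => (4 : ℝ) • a v.1)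
    (ℓ := 10 * ℓ) (r := exp L) (n := t - g') (τ := t - 10 * ℓ) (w0 := t) (N := 0)
    (Y := r * L - (1 - (k + 1 + 1) * κ) * (m * log K) + κ * (L + n - (k + 1) * (m * log K) + g))
    (card_par _ K) (by positivity) h1
    (fun v _ e he => ⟨_, mem_product.2 ⟨mem_univ _, hA2 e v (mem_fl.1 he).2⟩, ?_⟩)
    (sum_bound (card_par _ K) fun q _ => by simpa using hA1 q)
    (fun u => (ms_le_sum hν0 _).trans hνt) univ (by simp) (fun _ => mem_univ _)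
    fun u ν Z' n' t' n0 n1 n2 n3 n4 n5 n6 => ?_).trans
    (mul_le_mul_of_nonneg_left (three_exp hνt (by linarith) ?_) (by positivity))
  · have e0 : fp K (fun v : Ω × Ω => - dr K a e' v.2 - ∑ i, (2 : ℝ) • a v.1 i)
        (fun v => (4 : ℝ) • a v.1) e v = dr K a e v.1 - dr K a e' v.2 := by
      simp only [fp]
      generalize dr K a e' v.2 = d'
      rw [dr, sub_add, ← sum_sub_distrib, sub_eq_neg_add, ← sum_neg_distrib, ← sub_eq_add_neg]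
      refine congrArg (· - d') (sum_congr rfl fun i _ => ?_)
      rw [cf, Pi.smul_apply]
      module
    rw [e0]
    exact (norm_sub_cell _).trans (one_le_exp (by linarith))
  · have key := h L K _ ν _ _ _ (L + n - (k + 1) * (m * log K) + g) Z' n' t'
      ⟨by push_cast; linarith, n0, fun v => four_norm' (by linarith) hK0.le (hU.fa.an _),
      fun ω h2 => (n1 ω h2).trans (mul_le_mul_of_nonneg_right (exp_le_exp.2 (by linarith))
        (Nat.cast_nonneg _)), fun z z' => (n2 _).trans ?_, n3, n4⟩ hK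
      (fun z => (n2 _).trans ?_) n5.ge
    · push_cast at key
      linarith
    · rw [ms_ind]
      refine (ms_mono hV0 fun v _ h2 => ⟨h2.1, (four_le' h2.2.2.2).trans (by linarith), ?_⟩).trans
        (light_J hU hL g p e' _ (- z - ∑ i, (2 : ℝ) • ((4 : ℝ)⁻¹ • z') i))
      have e0 : dr K a e' v.2 - (- z - ∑ i, (2 : ℝ) • ((4 : ℝ)⁻¹ • z') i) =
          - (- dr K a e' v.2 - ∑ i, (2 : ℝ) • a v.1 i - z) -
            (∑ i, (2 : ℝ) • a v.1 i - ∑ i, (2 : ℝ) • ((4 : ℝ)⁻¹ • z') i) := by abel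
      rw [e0]
      refine (norm_sub_le _ _).trans ?_
      have := sum_close (c := fun _ => 2) (C := 2) (fun _ => by norm_num) (four_le' h2.2.2.2)
      rw [norm_neg]
      push_cast at this
      linarith [h2.2.2.1]
    · rw [ms_ind]
      exact (ms_mono hV0 fun _ _ h2 => four_le' h2.2.2).trans ((gv_fst hμ (exp_pos _)
        fun ω => ‖a ω - (4 : ℝ)⁻¹ • z‖ ≤ 1).trans ((hU.c2 _).trans (exp_le_exp.2 (by linarith))))
  · have f2 := mul_le_mul_of_nonneg_right h1 (by linarith : 0 ≤ L)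
    linarith

end Pool.Agent.Work.MP_72ad00_an.F
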