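import Pool.Agent.Work.MP_72ad00_an.F.F2

/-!
Lines inside pairs of flats.
-/

set_option autoImplicit false

open Finset Real

namespace Pool.Agent.Work.MP_72ad00_an.F

open Pool.Agent.Lib.PFR H

variable {m k : ℕ} {Ω : Type}

/-- The parameter `q` is near the point of slope `r` on the line through `p` of direction `e`. -/
def nr (K : ℕ) (p e : Fin k → Fin K) (r : ℕ) (q : Fin k → Fin K) : Prop :=
  ∀ i, |((q i : ℕ) : ℝ) - ((p i : ℕ) + r * cf K (e i))| ≤ 4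

theorem card_nr {K : ℕ} (p e : Fin k → Fin K) (r : ℕ) :
    ((fl univ (nr K p e r)).card : ℝ) ≤ 9 ^ k := by
  have h : fl univ (nr K p e r) ⊆ Fintype.piFinset fun i =>
      fl univ fun j : Fin K => |((j : ℕ) : ℝ) - ((p i : ℕ) + r * cf K (e i))| ≤ 4 := fun q hq =>
    Fintype.mem_piFinset.2 fun i => mem_fl.2 ⟨mem_univ _, (mem_fl.1 hq).2 i⟩
  refine (Nat.cast_le.2 (card_le_card h)).trans ?_
  rw [Fintype.card_piFinset]
  push_cast
  refine (prod_le_prod (g := fun _ => 9) (fun _ _ => Nat.cast_nonneg _) fun i _ =>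
    (card_fin K fun j => |(j : ℝ) - ((p i : ℕ) + r * cf K (e i))| ≤ 4).le.trans
      (card_four _ _)).trans ?_
  simp

theorem nine_pow {ℓ : ℝ} (hl : 10 + (k : ℝ) ≤ ℓ) : (9 : ℝ) ^ k ≤ exp (9 / 4 * ℓ - 20) := by
  have h1 : (9 : ℝ) ≤ exp (9 / 4) := by
    rw [show (9 / 4 : ℝ) = 1 + 1 + 1 / 4 by norm_num, exp_add, exp_add]
    nlinarith [e1, add_one_le_exp (1 / 4 : ℝ), mul_le_mul e1 e1 (by norm_num) (exp_pos 1).le]
  refine (pow_le_pow_left₀ (by norm_num) h1 k).trans ?_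
  rw [← exp_nat_mul]
  exact exp_le_exp.2 (by linarith)

theorem card_gd {K r : ℕ} (p : Fin k → Fin K) (hr : r < K) (h : K ≤ 2 * r)
    (S : Finset (Fin k → Fin K)) :
    (S.card : ℝ) ≤ 9 ^ k * (fl univ fun e => ∃ q ∈ S, nr K p e r q).card := by
  classical
  have h1 : S ⊆ (fl univ fun e => ∃ q ∈ S, nr K p e r q).biUnion
      fun e => fl univ (nr K p e r) := fun q hq => by
    choose e a1 a2 using fun i => exists_e (p i).2 (q i).2 hr h
    exact mem_biUnion.2 ⟨fun i => ⟨e i, mem_range.1 (a1 i)⟩, mem_fl.2 ⟨mem_univ _, q, hq, a2⟩,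
      mem_fl.2 ⟨mem_univ _, a2⟩⟩
  refine (Nat.cast_le.2 ((card_le_card h1).trans card_biUnion_le)).trans ?_
  push_cast
  refine (sum_le_sum fun e _ => card_nr p e r).trans ?_
  rw [sum_const, nsmul_eq_mul, mul_comm]

theorem pt_nr {K r : ℕ} (hK : (0 : ℝ) < K) {x : Ω → Fin m → ℝ} {a : Ω → Fin k → Fin m → ℝ}
    {p e q : Fin k → Fin K} {ω : Ω} {ℓ : ℝ} (ha : ‖a ω‖ ≤ exp ℓ * K) (h : nr K p e r q) :
    ‖fp K x a q ω - pt K (fp K x a p) (dr K a e) r ω‖ ≤ k * (4 * exp ℓ) := by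
  have e0 : fp K x a q ω - pt K (fp K x a p) (dr K a e) r ω =
      ∑ i, ((((q i : ℕ) : ℝ) - ((p i : ℕ) + r * cf K (e i))) / K) • a ω i := by
    simp only [pt, fp, dr, smul_sum]
    rw [add_assoc, add_sub_add_left_eq_sub, ← sum_add_distrib, ← sum_sub_distrib]
    exact sum_congr rfl fun i _ => by module
  have h1 := sum_close (c := fun i => (((q i : ℕ) : ℝ) - ((p i : ℕ) + r * cf K (e i))) / K)
    (C := 4 / K) (fun i => by
      rw [abs_div, abs_of_pos hK]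
      exact div_le_div_of_nonneg_right (h i) hK.le) (u := a ω) (v := 0) (ρ := exp ℓ * K)
    (by rwa [sub_zero])
  simp only [Pi.zero_apply, smul_zero, sum_const_zero, sub_zero] at h1
  rw [e0]
  refine h1.trans (le_of_eq ?_)
  field_simp

/-- Slopes that are good for both lines. -/
noncomputable def gs (K : ℕ) (S : Ω → Finset (Fin k → Fin K)) (p e e' : Fin k → Fin K)
    (v : Ω × Ω) : Finset ℕ :=
  fl (range K) fun r => K ≤ 2 * r ∧ (∃ q ∈ S v.1, nr K p e r q) ∧ ∃ q ∈ S v.2, nr K p e' r q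

theorem gs_count {K : ℕ} (hK : 2 ≤ K) (S : Ω → Finset (Fin k → Fin K)) (p : Fin k → Fin K)
    {v : Ω × Ω} {N : ℝ} (hN : 0 ≤ N) (h1 : 9 ^ k * N ≤ (S v.1).card)
    (h2 : 9 ^ k * N ≤ (S v.2).card) :
    K / 4 * (N * N) ≤ ∑ e', ∑ e, ((gs K S p e e' v).card : ℝ) := by
  have e0 : ∑ e', ∑ e, ((gs K S p e e' v).card : ℝ) = ∑ r ∈ range K, ind (K ≤ 2 * r) *
      (((fl univ fun e => ∃ q ∈ S v.1, nr K p e r q).card : ℝ) *
        (fl univ fun e => ∃ q ∈ S v.2, nr K p e r q).card) := by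
    simp only [gs, card_fl_eq, ind_and, sum_mul, mul_sum]
    rw [sum_congr rfl fun e _ => sum_comm, sum_comm]
  have e1 : (K : ℝ) / 4 ≤ (fl (range K) fun r => K ≤ 2 * r).card := by
    have h3 : Ico ((K + 1) / 2) K ⊆ fl (range K) fun r => K ≤ 2 * r := fun r hr => by
      rw [mem_Ico] at hr
      exact mem_fl.2 ⟨mem_range.2 hr.2, by omega⟩
    have h4 := card_le_card h3
    rw [Nat.card_Ico] at h4
    rw [div_le_iff₀ (by norm_num)]
    exact_mod_cast (by omega : K ≤ (fl (range K) fun r => K ≤ 2 * r).card * 4)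
  rw [e0]
  refine (mul_le_mul_of_nonneg_right e1 (by positivity)).trans ?_
  rw [card_fl_eq, sum_mul]
  refine sum_le_sum fun r hr => ?_
  by_cases h : K ≤ 2 * r
  · exact mul_le_mul_of_nonneg_left (mul_le_mul
      (le_of_mul_le_mul_left (h1.trans (card_gd p (mem_range.1 hr) h _)) (by positivity))
      (le_of_mul_le_mul_left (h2.trans (card_gd p (mem_range.1 hr) h _)) (by positivity)) hN
      (Nat.cast_nonneg _)) (ind_nonneg _)
  · rw [ind_neg h, zero_mul, zero_mul]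

variable [Fintype Ω] {ℓ L : ℝ} {K : ℕ} {μ : Ω → ℝ} {x : Ω → Fin m → ℝ}
  {a : Ω → Fin (k + 1) → Fin m → ℝ} {S : Ω → Finset (Fin (k + 1) → Fin K)} {w t n : ℝ}
  {Z : (Fin (k + 1) → Fin K) → Finset (Fin m → ℝ)} {c : (Fin (k + 1) → Fin K) → Ω → Fin m → ℝ}

theorem FU.line (hU : FU ℓ K μ x a S w t Z c n) (hK : (0 : ℝ) < K) (p e : Fin (k + 1) → Fin K)
    (r : ℕ) : ∃ A : Finset (Fin m → ℝ), (A.card : ℝ) ≤ exp (n + 3 * ℓ) ∧ ∀ ω, μ ω ≠ 0 →
      (∃ q ∈ S ω, nr K p e r q) →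
        ∃ z ∈ A, ‖pt K (fp K x a p) (dr K a e) r ω - z‖ ≤ exp (2 * ℓ) := by
  classical
  have hl := hU.l1
  have k0 := Nat.cast_nonneg (α := ℝ) k
  refine ⟨(fl univ (nr K p e r)).biUnion Z,
    (Nat.cast_le.2 card_biUnion_le).trans ?_, fun ω hω ⟨q, q1, q2⟩ => ⟨c q ω,
      mem_biUnion.2 ⟨q, mem_fl.2 ⟨mem_univ _, q2⟩, (hU.cov ω hω q q1).1⟩, ?_⟩⟩
  · push_cast
    refine (sum_le_sum fun q _ => hU.zc q).trans ?_
    rw [sum_const, nsmul_eq_mul]
    exact (mul_le_mul_of_nonneg_right ((card_nr p e r).trans (nine_pow hU.fa.l1))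
      (exp_pos _).le).trans (exp_mul_le (by linarith))
  · have := norm_sub_le_norm_sub_add_norm_sub (pt K (fp K x a p) (dr K a e) r ω)
      (fp K x a q ω) (c q ω)
    rw [norm_sub_rev _ (fp K x a q ω)] at this
    have h1 := pt_nr (x := x) hK (hU.fa.an ω) q2
    rw [two_mul, exp_add]
    push_cast at h1
    nlinarith [(hU.cov ω hω q q1).2, mul_le_mul_of_nonneg_right (le_exp_of hl) (exp_pos ℓ).le,
      exp_pos ℓ, mul_nonneg k0 (exp_pos ℓ).le]

theorem light_D {β p : ℝ} (h : RKp m β p) (h0 : 1 / 2 ≤ β) (h1 : β ≤ 1)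
    (hU : FU ℓ K μ x a S w t Z c n) (hL : 20 * ℓ + 40 * ((k + 1) * (m * ℓ)) ≤ L)
    (hK : exp (p * L) ≤ K) (gA gB gN : ℝ) (p0 e e' : Fin (k + 1) → Fin K) :
    ∑ v, ind (¬ Hv μ (LA K x a p0 e) gA v.1 ∧ ¬ Hv μ (LA K x a p0 e') gA v.2 ∧
        ¬ Hv (vp μ S c (exp (t - n - 10 * ℓ)) p0) (LB K a e e') gB v ∧
        ¬ Hv (vp μ S c (exp (t - n - 10 * ℓ)) p0) (LN K a e e') gN v) *
      vp μ S c (exp (t - n - 10 * ℓ)) p0 v * (gs K S p0 e e' v).card ≤
      K * (exp (t - 10 * ℓ) + exp ((p + 1) * L + 2 * n + (1 - β) * gN +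
        (2 * β - 1) * gB + (1 - β) * (n - t + 2 * gA))) := by
  classical
  obtain ⟨m0, k0, km, f0, f1⟩ := num hU.l1 m
  have hl := hU.l1
  have hμ := hU.fa.pos
  have hK0 : (0 : ℝ) < K := (exp_pos _).trans_le hK
  set V := vp μ S c (exp (t - n - 10 * ℓ)) p0 with hV
  have hV0 : ∀ v, 0 ≤ V v := gv_nonneg hμ (exp_pos _)
  have hVt : ∑ v, V v ≤ exp t := (gv_sum_le hμ (exp_pos _)).trans hU.tot.le
  set G : Ω × Ω → Prop := fun v => ¬ Hv μ (LA K x a p0 e) gA v.1 ∧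
    ¬ Hv μ (LA K x a p0 e') gA v.2 ∧ ¬ Hv V (LB K a e e') gB v ∧ ¬ Hv V (LN K a e e') gN v
    with hG
  choose Y hY1 hY2 using hU.line hK0 p0
  choose A hA1 hA2 using fun z : Fin m → ℝ => exists_cells z (x := 3 * ℓ) (by linarith)
  have x1 : 1 ≤ exp ℓ := one_le_exp (by linarith)
  have hdd : ∀ (v : Ω × Ω) (u z : Fin m → ℝ), LN K a e e' v = u → ‖dr K a e v.1 - z‖ ≤ 1 →
      ‖dr K a e' v.2 - (z - u)‖ ≤ 2 := fun v u z h2 h3 => by
    have e0 : dr K a e' v.2 - (z - u) =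
        (dr K a e v.1 - z) - (dr K a e v.1 - dr K a e' v.2 - u) := by module
    rw [e0]
    linarith [norm_sub_le (dr K a e v.1 - z) (dr K a e v.1 - dr K a e' v.2 - u), norm_of_cell h2]
  refine (h.cond h1 (μ := fun v => ind (G v) * V v) (y := fun v => fp K x a p0 v.1)
    (d := fun v => dr K a e v.1) (S := gs K S p0 e e') (LN K a e e')
    (fun r => (Y e r ×ˢ Y e' r).biUnion fun z =>
      (A (((r : ℝ) / K)⁻¹ • (z.1 - z.2))).image fun u => (u, z.1))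
    (n := 2 * n + 6 * ℓ + 4 * (m * ℓ)) (w0 := gN) (w2 := gB + m * ℓ)
    (w1 := n - t + 2 * gA + (10 * ℓ + 5 * (m * ℓ))) (by linarith) hK
    (ind_mul_nonneg hV0 G) (fun v => (dr_le hU.fa.l1 (hU.fa.an _) e).trans
      (mul_le_mul_of_nonneg_right (exp_le_exp.2 (by linarith)) hK0.le))
    (fun v => fl_subset _ _) (fun v hv r hr => ?_) ?_
    (fun u => ?_) (fun u z => ?_) fun u z z' => ?_).trans (mul_le_mul_of_nonneg_left ?_ hK0.le)
  · have hv' : V v ≠ 0 := right_ne_zero_of_mul hv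
    obtain ⟨-, r1, r2, r3⟩ := mem_fl.1 hr
    obtain ⟨z, z1, z2⟩ := hY2 e r _ (gv_ne hv').1 r2
    obtain ⟨z', z3, z4⟩ := hY2 e' r _ (gv_ne hv').2.1 r3
    refine ⟨z, mem_biUnion.2 ⟨(z, z'), mem_product.2 ⟨z1, z3⟩,
      mem_image.2 ⟨_, hA2 _ (dr K a e v.1 - dr K a e' v.2) ?_, rfl⟩⟩,
      z2.trans (exp_le_exp.2 (by linarith))⟩
    have r4 : (K : ℝ) ≤ 2 * r := by exact_mod_cast r1
    have s1 : exp (- 1) ≤ |(r : ℝ) / K| := by
      rw [abs_of_nonneg (by positivity), le_div_iff₀ hK0]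
      have := two_le_exp (by norm_num : (- 1 : ℝ) + 1 ≤ 0)
      rw [exp_zero] at this
      nlinarith
    have s0 : (r : ℝ) / K ≠ 0 := abs_pos.1 ((exp_pos _).trans_le s1)
    have e0 : dr K a e v.1 - dr K a e' v.2 - ((r : ℝ) / K)⁻¹ • (z - z') =
        ((r : ℝ) / K)⁻¹ • ((pt K (fp K x a p0) (dr K a e) r v.1 - z) -
          (pt K (fp K x a p0) (dr K a e') r v.2 - z') +
          (fp K x a p0 v.2 - fp K x a p0 v.1)) := by
      simp only [pt]
      generalize (r : ℝ) / K = s at s0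
      match_scalars <;> field_simp
      all_goals ring
    rw [e0]
    refine (norm_inv_smul_le s1 ((norm_add_le _ _).trans (add_le_add ((norm_sub_le _ _).trans
      (add_le_add z2 z4)) (hU.close hv')))).trans ?_
    have := two_le_exp (by linarith : 1 + 2 * ℓ + 1 ≤ 3 * ℓ)
    rw [exp_add] at this
    nlinarith [mul_le_mul_of_nonneg_left (exp_le_exp.2 (by linarith : ℓ ≤ 2 * ℓ)) (exp_pos 1).le]
  · refine (sum_le_sum fun r _ => (?_ : _ ≤ exp (2 * n + 6 * ℓ + 4 * (m * ℓ)))).trans ?_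
    · refine (Nat.cast_le.2 card_biUnion_le).trans ?_
      push_cast
      refine (sum_le_sum fun q _ => (Nat.cast_le.2 card_image_le).trans (hA1 _)).trans ?_
      rw [sum_const, nsmul_eq_mul, card_product, Nat.cast_mul]
      refine (mul_le_mul_of_nonneg_right (mul_le_mul (hY1 _ _) (hY1 _ _) (Nat.cast_nonneg _)
        (exp_pos _).le) (exp_pos _).le).trans ?_
      rw [← exp_add]
      exact exp_mul_le (by linarith)
    · rw [sum_const, card_range, nsmul_eq_mul]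
  · rw [ms_ind]
    exact light_le hV0 (LN K a e e') (exp_pos _).le u fun v _ h2 =>
      ⟨h2.2, le_rfl, not_lt.1 h2.1.2.2.2⟩
  · rw [ms_ind]
    refine (ms_mono hV0 fun v _ h2 => ⟨h2.1.2.2.1, (hdd v u z h2.2.1 h2.2.2).trans ?_,
      h2.2.2.trans ?_⟩).trans ((light2 hV0 (fun v => dr K a e' v.2) (fun v => dr K a e v.1) gB
        le_rfl (z - u) z).trans (exp_le_exp.2 (by linarith)))
    all_goals simp
  · rw [ms_ind]
    refine (ms2_le hμ hμ (exp_pos _).le (fun u1 u2 hv h2 =>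
      ⟨⟨⟨h2.1.1, h2.2.2.2.trans (by linarith), h2.2.2.1.trans (by linarith)⟩, h2.1.2.1,
        (hdd _ u z' h2.2.1 h2.2.2.2).trans (by linarith), hU.close (v := (u1, u2)) hv⟩,
        vp_le hμ p0 u1 u2⟩)
      (light2 hμ (dr K a e) (fp K x a p0) gA (by linarith : 0 ≤ ℓ) z' z)
      (fun u1 => light2 hμ (dr K a e') (fp K x a p0) gA (by linarith : 0 ≤ ℓ) (z' - u)
        (fp K x a p0 u1))
      (exp_pos _).le).trans ?_
    simp only [← exp_add]
    exact exp_le_exp.2 (by linarith)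
  · refine add_le_add ((mul_le_mul_of_nonneg_left ((ms_le_sum hV0 G).trans hVt)
      (exp_pos _).le).trans (exp_mul_le (by linarith))) (exp_le_exp.2 ?_)
    have f2 := mul_le_mul_of_nonneg_right (by linarith : 1 - β ≤ 1)
      (by linarith : 0 ≤ 10 * ℓ + 5 * (m * ℓ))
    have f3 := mul_le_mul_of_nonneg_right (by linarith : 2 * β - 1 ≤ 1)
      (by linarith : 0 ≤ m * ℓ)
    linarith

end Pool.Agent.Work.MP_72ad00_an.F
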