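import Pool.Agent.Work.MP_2a522c_an.W.W1

/-!
Sets containing a translate of every plane of a given dimension have positive measure.
-/

set_option autoImplicit false

open MeasureTheory Set
open scoped ENNReal NNReal

namespace Pool.Agent.Work.MP_72ad00_an.F

open MP_2a522c_an

theorem kpl {n l k : ℕ} (h : cc (k + 1) * l < 1) (hn : l + (k + 2) = n) {E : Set (Vc n)}
    (hE : ∀ V : Submodule ℝ (Vc n), Module.finrank ℝ V = k + 2 → ∃ x, ∀ v ∈ V, x + v ∈ E) :
    volume E ≠ 0 := by
  intro h0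
  obtain ⟨N, N1, N2, N3⟩ := exists_measurable_superset_of_null h0
  obtain ⟨T, T0, T1⟩ := TopologicalSpace.exists_countable_dense (Vc n)
  have m1 : MeasurableSet (⋃ r ∈ T, (fun y => y - r) ⁻¹' N) :=
    MeasurableSet.biUnion T0 fun r _ => measurable_sub_const r N2
  have m2 : volume (⋃ r ∈ T, (fun y => y - r) ⁻¹' N) = 0 :=
    (measure_biUnion_null_iff T0).2 fun r _ =>
      (measurePreserving_sub_right volume r).quasiMeasurePreserving.preimage_null N3
  have m3 : ((n : ℝ≥0) : ℝ≥0∞) ≤ dimH (⋃ r ∈ T, (fun y => y - r) ⁻¹' N)ᶜ := by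
    refine le_dimH_of_hausdorffMeasure_ne_zero fun h1 => ?_
    have h2 := hausdorffMeasure_pi_real (ι := Fin n)
    rw [Fintype.card_fin] at h2
    rw [NNReal.coe_natCast, h2] at h1
    have h3 := measure_union_null m2 h1
    rw [union_compl_self] at h3
    exact (isOpen_univ.measure_pos volume univ_nonempty).ne' h3
  obtain ⟨K, K1, -, K3⟩ := W.ae_matrix (l := l) (k := k) m1.compl (lt_of_lt_of_le
    (ENNReal.ofReal_lt_coe_iff (by positivity [cc_pos k]) |>.2 (by
      rw [← hn]
      push_cast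
      linarith)) m3)
  obtain ⟨A, hA⟩ := K3.exists
  let f : Vc n →ₗ[ℝ] Vc l := Matrix.mulVecLin (Matrix.of A)
  have f1 : mv A = f := rfl
  rw [f1] at hA
  have f2 : LinearMap.range f = ⊤ := (LinearMap.range f).eq_top_of_nonempty_interior'
    (hA.mono (interior_mono (image_subset_range _ _)))
  have f3 := LinearMap.finrank_range_add_finrank_ker f
  rw [f2, finrank_top, Module.finrank_fin_fun, Module.finrank_fin_fun] at f3
  obtain ⟨x, hx⟩ := hE (LinearMap.ker f) (by omega)
  have f4 : DenseRange fun y => f (x + y) := Function.Surjective.denseRange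
    ((LinearMap.range_eq_top.1 f2).comp (add_left_surjective x))
  obtain ⟨_, z1, r, r1, rfl⟩ := (f4.dense_image (f.continuous_of_finiteDimensional.comp
    (continuous_const_add x)) T1).inter_open_nonempty _ isOpen_interior hA
  obtain ⟨y, y1, y2⟩ := interior_subset z1
  refine K1 y1 (mem_iUnion₂.2 ⟨r, r1, N1 ?_⟩)
  have := hx (y - (x + r)) (by rw [LinearMap.mem_ker, map_sub, y2, sub_self])
  rwa [← sub_sub, ← add_sub_assoc, add_sub_cancel] at this

theorem kplanes {n k : ℕ} (hn : k + 2 ≤ n) (h : cc (k + 1) * ((n : ℝ) - (k + 2)) < 1)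
    {E : Set (Eu n)}
    (hE : ∀ V : Submodule ℝ (Eu n), Module.finrank ℝ V = k + 2 → ∃ x, ∀ v ∈ V, x + v ∈ E) :
    volume E ≠ 0 := by
  obtain ⟨l, hl⟩ := Nat.exists_eq_add_of_le' hn
  let e : Vc n ≃ₗ[ℝ] Eu n := (WithLp.linearEquiv 2 ℝ _).symm
  refine fun h0 => kpl (l := l) (E := e ⁻¹' E) (by rw [hl] at h; push_cast at h; linarith) hl.symm
    (fun V hV => ?_)
    ((PiLp.volume_preserving_toLp (Fin n)).quasiMeasurePreserving.preimage_null h0)
  obtain ⟨x, hx⟩ := hE (V.map e.toLinearMap) ((LinearEquiv.finrank_map_eq _ _).trans hV)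
  refine ⟨e.symm x, fun v hv => ?_⟩
  rw [mem_preimage, map_add, e.apply_symm_apply]
  exact hx _ (Submodule.mem_map_of_mem hv)

end Pool.Agent.Work.MP_72ad00_an.F
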